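import Mathlib

set_option autoImplicit false

/-!
# The core argument for the weak maximizing property
-/

namespace Pool.Agent.H791W

open Filter Topology

variable {E : Type*} [NormedAddCommGroup E] [NormedSpace ℝ E]

/-- asymptotic pointwise bound on the unit ball -/
def Om (h : ℕ → (E →L[ℝ] ℝ)) (a : ℝ) : Prop :=
  ∀ z : E, ‖z‖ ≤ 1 → ∀ b > a, ∀ᶠ n in atTop, |h n z| ≤ b

/-- the consequence of the weak maximizing property that is used -/
def PropW (E : Type*) [NormedAddCommGroup E] [NormedSpace ℝ E] : Prop :=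
  ∀ (f : ℕ → (E →L[ℝ] ℝ)) (x : ℕ → E), (∀ n, ‖f n‖ ≤ 1) → (∀ n, ‖x n‖ = 1) →
    Tendsto (fun n => f n (x n)) atTop (𝓝 1) → (∃ a < 1, Om f a) →
    ∀ φ : E →L[ℝ] ℝ, Tendsto (fun n => φ (x n)) atTop (𝓝 0)

lemma exists_unit {F : E →L[ℝ] ℝ} {r : ℝ} (hr0 : 0 ≤ r) (hr : r < ‖F‖) :
    ∃ u : E, ‖u‖ = 1 ∧ r < F u := by
  obtain ⟨x, hx1, hx2⟩ := F.exists_lt_apply_of_lt_opNorm hr
  have hx0 : 0 < ‖x‖ := by
    rw [norm_pos_iff]
    rintro rfl
    simp at hx2
    linarith
  have hinv : 1 ≤ ‖x‖⁻¹ := (one_le_inv₀ hx0).2 hx1.le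
  rcases le_or_gt 0 (F x) with h | h
  · refine ⟨‖x‖⁻¹ • x, ?_, ?_⟩
    · rw [norm_smul, norm_inv, norm_norm, inv_mul_cancel₀ hx0.ne']
    · rw [map_smul, smul_eq_mul]
      rw [Real.norm_eq_abs, abs_of_nonneg h] at hx2
      nlinarith
  · refine ⟨-(‖x‖⁻¹ • x), ?_, ?_⟩
    · rw [norm_neg, norm_smul, norm_inv, norm_norm, inv_mul_cancel₀ hx0.ne']
    · rw [map_neg, map_smul, smul_eq_mul]
      rw [Real.norm_eq_abs, abs_of_neg h] at hx2
      nlinarith

lemma step2 (hW : PropW E) {g : ℕ → (E →L[ℝ] ℝ)} (hg : ∀ n, ‖g n‖ = 1) {η : ℝ} (hη : 0 < η)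
    (hO : Om g (η / 2)) (f : E →L[ℝ] ℝ) : ∀ᶠ n in atTop, ‖f + g n‖ ≤ max ‖f‖ 1 + η := by
  by_contra hcon
  have h1 : ∃ᶠ n in atTop, max ‖f‖ 1 + η < ‖f + g n‖ := by
    intro h
    apply hcon
    filter_upwards [h] with n hn
    exact not_lt.1 hn
  obtain ⟨φ, hφ, h2⟩ := extraction_of_frequently_atTop h1
  set C := max ‖f‖ 1 + η with hC
  have hCf : ‖f‖ + η ≤ C := by
    have := le_max_left ‖f‖ 1
    linarith
  have hC1 : 1 + η ≤ C := by
    have := le_max_right ‖f‖ 1
    linarith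
  have h3 : ∀ k : ℕ, ∃ u : E, ‖u‖ = 1 ∧ ‖f + g (φ k)‖ - 1 / ((k : ℝ) + 1) < (f + g (φ k)) u := by
    intro k
    have hk : 0 < 1 / ((k : ℝ) + 1) := by positivity
    have hk1 : 1 / ((k : ℝ) + 1) ≤ 1 := by
      rw [div_le_one (by positivity)]
      linarith [Nat.cast_nonneg (α := ℝ) k]
    have := h2 k
    exact exists_unit (by linarith) (by linarith)
  choose u hu1 hu2 using h3
  set h : ℕ → (E →L[ℝ] ℝ) := fun k => ‖f + g (φ k)‖⁻¹ • (f + g (φ k)) with hh
  have hpos : ∀ k, 0 < ‖f + g (φ k)‖ := fun k => by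
    have := h2 k
    linarith
  have hn : ∀ k, ‖h k‖ ≤ 1 := by
    intro k
    rw [hh]
    simp only
    rw [norm_smul, norm_inv, norm_norm, inv_mul_cancel₀ (hpos k).ne']
  have hlim0 : Tendsto (fun k : ℕ => 1 / ((k : ℝ) + 1)) atTop (𝓝 0) :=
    tendsto_one_div_add_atTop_nhds_zero_nat
  have hlim : Tendsto (fun k => h k (u k)) atTop (𝓝 1) := by
    have h4 : Tendsto (fun k : ℕ => 1 - 1 / ((k : ℝ) + 1)) atTop (𝓝 1) := by
      simpa using (tendsto_const_nhds (x := (1 : ℝ))).sub hlim0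
    refine tendsto_of_tendsto_of_tendsto_of_le_of_le h4 tendsto_const_nhds (fun k => ?_)
      (fun k => ?_)
    · show 1 - 1 / ((k : ℝ) + 1) ≤ (‖f + g (φ k)‖⁻¹ • (f + g (φ k))) (u k)
      rw [smul_apply, smul_eq_mul, ← div_eq_inv_mul, le_div_iff₀ (hpos k)]
      have h5 := hu2 k
      have h6 : 1 / ((k : ℝ) + 1) ≤ 1 / ((k : ℝ) + 1) * ‖f + g (φ k)‖ := by
        have : 1 ≤ ‖f + g (φ k)‖ := by
          have := h2 k
          linarith
        exact le_mul_of_one_le_right (by positivity) this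
      linarith
    · calc h k (u k) ≤ ‖h k (u k)‖ := le_abs_self _
        _ ≤ ‖h k‖ * ‖u k‖ := (h k).le_opNorm _
        _ ≤ 1 * 1 := mul_le_mul (hn k) (hu1 k).le (norm_nonneg _) zero_le_one
        _ = 1 := one_mul 1
  have hOm : ∃ a < 1, Om h a := by
    refine ⟨(‖f‖ + η / 2) / C, ?_, ?_⟩
    · rw [div_lt_one (by linarith)]
      linarith
    · intro z hz b hb
      have hCpos : 0 < C := by linarith
      have hb' : ‖f‖ + η / 2 < b * C := by rwa [gt_iff_lt, div_lt_iff₀ hCpos] at hb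
      have h5 := (hO z hz (b * C - ‖f‖) (by linarith))
      have h6 := (hφ.tendsto_atTop).eventually h5
      filter_upwards [h6] with k hk
      show |(‖f + g (φ k)‖⁻¹ • (f + g (φ k))) z| ≤ b
      have h7 : |f z| ≤ ‖f‖ := by
        calc |f z| ≤ ‖f‖ * ‖z‖ := f.le_opNorm z
          _ ≤ ‖f‖ * 1 := mul_le_mul_of_nonneg_left hz (norm_nonneg _)
          _ = _ := mul_one _
      have h8 : |(f + g (φ k)) z| ≤ b * C := by
        rw [add_apply]
        refine (abs_add_le _ _).trans ?_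
        linarith
      rw [smul_apply, smul_eq_mul, ← div_eq_inv_mul, abs_div, abs_of_pos (hpos k),
        div_le_iff₀ (hpos k)]
      refine h8.trans ?_
      have hb0 : 0 ≤ b := by
        have h9 : 0 < b * C := by
          have := norm_nonneg f
          linarith
        exact (pos_of_mul_pos_left h9 hCpos.le).le
      exact mul_le_mul_of_nonneg_left (h2 k).le hb0
  have hweak := hW h u hn hu1 hlim hOm f
  -- contradiction
  have h4 : ∀ k : ℕ, C - 1 / ((k : ℝ) + 1) - f (u k) ≤ 1 := by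
    intro k
    have h5 : g (φ k) (u k) ≤ 1 := by
      calc g (φ k) (u k) ≤ ‖g (φ k) (u k)‖ := le_abs_self _
        _ ≤ ‖g (φ k)‖ * ‖u k‖ := (g (φ k)).le_opNorm _
        _ = 1 := by rw [hg, hu1, one_mul]
    have h6 := hu2 k
    rw [add_apply] at h6
    have h7 := h2 k
    linarith
  have h5 : Tendsto (fun k : ℕ => C - 1 / ((k : ℝ) + 1) - f (u k)) atTop (𝓝 (C - 0 - 0)) :=
    (tendsto_const_nhds.sub hlim0).sub hweak
  have h6 := le_of_tendsto' h5 h4
  linarith

/-- one step of the construction -/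
lemma step3 (hW : PropW E) (hA : ∀ η : ℝ, 0 < η → ∃ g : ℕ → (E →L[ℝ] ℝ), (∀ n, ‖g n‖ = 1) ∧ Om g η)
    (Φ : Finset (E →L[ℝ] ℝ)) (X : Finset E) (hX : ∀ x ∈ X, ‖x‖ ≤ 1) {η : ℝ} (hη : 0 < η)
    (hη1 : η < 1) :
    ∃ (g : E →L[ℝ] ℝ) (x : E), ‖g‖ = 1 ∧ ‖x‖ = 1 ∧ 1 - η ≤ g x ∧ (∀ y ∈ X, |g y| ≤ η) ∧
      (∀ f ∈ Φ, |f x| ≤ η) ∧ ∀ f ∈ Φ, ‖f + g‖ ≤ max ‖f‖ 1 + η := by
  obtain ⟨g, hg, hO⟩ := hA (η / 2) (by positivity)
  have h3 : ∀ k : ℕ, ∃ u : E, ‖u‖ = 1 ∧ 1 - 1 / ((k : ℝ) + 1) < g k u := by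
    intro k
    have hk : 0 < 1 / ((k : ℝ) + 1) := by positivity
    have hk1 : 1 / ((k : ℝ) + 1) ≤ 1 := by
      rw [div_le_one (by positivity)]
      linarith [Nat.cast_nonneg (α := ℝ) k]
    exact exists_unit (by linarith) (by rw [hg]; linarith)
  choose x hx1 hx2 using h3
  have hlim0 : Tendsto (fun k : ℕ => 1 / ((k : ℝ) + 1)) atTop (𝓝 0) :=
    tendsto_one_div_add_atTop_nhds_zero_nat
  have h4 : Tendsto (fun k : ℕ => 1 - 1 / ((k : ℝ) + 1)) atTop (𝓝 1) := by
    simpa using (tendsto_const_nhds (x := (1 : ℝ))).sub hlim0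
  have hlim : Tendsto (fun k => g k (x k)) atTop (𝓝 1) := by
    refine tendsto_of_tendsto_of_tendsto_of_le_of_le h4 tendsto_const_nhds (fun k => (hx2 k).le)
      (fun k => ?_)
    calc g k (x k) ≤ ‖g k (x k)‖ := le_abs_self _
      _ ≤ ‖g k‖ * ‖x k‖ := (g k).le_opNorm _
      _ = 1 := by rw [hg, hx1, one_mul]
  have hweak := hW g x (fun n => (hg n).le) hx1 hlim ⟨η / 2, by linarith, hO⟩
  have e1 : ∀ᶠ n in atTop, 1 - η ≤ g n (x n) :=
    (hlim.eventually (lt_mem_nhds (show 1 - η < 1 by linarith))).mono fun n hn => hn.le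
  have e2 : ∀ᶠ n in atTop, ∀ y ∈ X, |g n y| ≤ η :=
    (eventually_all_finset X).2 fun y hy => hO y (hX y hy) η (by linarith)
  have e3 : ∀ᶠ n in atTop, ∀ f ∈ Φ, |f (x n)| ≤ η := by
    refine (eventually_all_finset Φ).2 fun f _ => ?_
    have := (hweak f).abs
    rw [abs_zero] at this
    exact (this.eventually (gt_mem_nhds hη)).mono fun n hn => hn.le
  have e4 : ∀ᶠ n in atTop, ∀ f ∈ Φ, ‖f + g n‖ ≤ max ‖f‖ 1 + η :=
    (eventually_all_finset Φ).2 fun f _ => step2 hW hg hη hO f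
  obtain ⟨n, a1, a2, a3, a4⟩ := (e1.and (e2.and (e3.and e4))).exists
  exact ⟨g n, x n, hg n, hx1 n, a1, a2, a3, a4⟩

/-- the recursion -/
lemma step4 (hW : PropW E)
    (hA : ∀ η : ℝ, 0 < η → ∃ g : ℕ → (E →L[ℝ] ℝ), (∀ n, ‖g n‖ = 1) ∧ Om g η) :
    ∃ (g : ℕ → (E →L[ℝ] ℝ)) (x : ℕ → E), (∀ n, ‖g n‖ = 1) ∧ (∀ n, ‖x n‖ = 1) ∧
      (∀ n, 1 - (1 / 8) ^ (n + 1) ≤ g n (x n)) ∧
      (∀ i j, i < j → |g j (x i)| ≤ (1 / 8) ^ (j + 1)) ∧
      (∀ i j, i < j → |g i (x j)| ≤ (1 / 8) ^ (j + 1)) ∧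
      ∀ s : Finset ℕ, ‖∑ i ∈ s, g i‖ ≤ 2 := by
  classical
  let St := {p : Finset (E →L[ℝ] ℝ) × Finset E // ∀ x ∈ p.2, ‖x‖ ≤ 1}
  have hpos : ∀ n : ℕ, (0 : ℝ) < (1 / 8) ^ (n + 1) := fun n => by positivity
  have hlt : ∀ n : ℕ, (1 / 8 : ℝ) ^ (n + 1) < 1 := fun n => pow_lt_one₀ (by norm_num) (by norm_num)
    (Nat.succ_ne_zero n)
  have hstep : ∀ (n : ℕ) (p : St), ∃ (g : E →L[ℝ] ℝ) (x : E), ‖g‖ = 1 ∧ ‖x‖ = 1 ∧
      1 - (1 / 8) ^ (n + 1) ≤ g x ∧ (∀ y ∈ p.1.2, |g y| ≤ (1 / 8) ^ (n + 1)) ∧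
      (∀ f ∈ p.1.1, |f x| ≤ (1 / 8) ^ (n + 1)) ∧
      ∀ f ∈ p.1.1, ‖f + g‖ ≤ max ‖f‖ 1 + (1 / 8) ^ (n + 1) := fun n p =>
    step3 hW hA p.1.1 p.1.2 p.2 (hpos n) (hlt n)
  choose G X h1 h2 h3 h4 h5 h6 using hstep
  let nxt : ℕ → St → St := fun n p => ⟨(p.1.1 ∪ p.1.1.image (fun f => f + G n p), insert (X n p) p.1.2),
    by
      intro x hx
      rcases Finset.mem_insert.1 hx with h | h
      · rw [h]; exact (h2 n p).le
      · exact p.2 x h⟩
  obtain ⟨st, hst0, hst⟩ : ∃ st : ℕ → St, (st 0).1.1 = {0} ∧ ∀ n, st (n + 1) = nxt n (st n) :=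
    ⟨fun n => Nat.rec (motive := fun _ => St) ⟨({0}, ∅), by simp⟩ nxt n, rfl, fun n => rfl⟩
  have hst1 : ∀ n, (st (n + 1)).1.1 = (st n).1.1 ∪ (st n).1.1.image (fun f => f + G n (st n)) :=
    fun n => by rw [hst]
  have hst2 : ∀ n, (st (n + 1)).1.2 = insert (X n (st n)) (st n).1.2 := fun n => by rw [hst]
  have hmono1 : ∀ m n, m ≤ n → (st m).1.1 ⊆ (st n).1.1 := by
    intro m n hmn
    induction n, hmn using Nat.le_induction with
    | base => exact subset_rfl
    | succ n hn ih =>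
      rw [hst1]
      exact ih.trans Finset.subset_union_left
  have hmono2 : ∀ m n, m ≤ n → (st m).1.2 ⊆ (st n).1.2 := by
    intro m n hmn
    induction n, hmn using Nat.le_induction with
    | base => exact subset_rfl
    | succ n hn ih =>
      rw [hst2]
      exact ih.trans (Finset.subset_insert _ _)
  have hzero : ∀ n, (0 : E →L[ℝ] ℝ) ∈ (st n).1.1 := fun n =>
    hmono1 0 n (Nat.zero_le n) (by rw [hst0]; exact Finset.mem_singleton_self 0)
  have hgmem : ∀ i j, i < j → G i (st i) ∈ (st j).1.1 := by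
    intro i j hij
    refine hmono1 (i + 1) j hij ?_
    rw [hst1]
    exact Finset.mem_union_right _ (Finset.mem_image.2 ⟨0, hzero i, zero_add _⟩)
  have hxmem : ∀ i j, i < j → X i (st i) ∈ (st j).1.2 := by
    intro i j hij
    refine hmono2 (i + 1) j hij ?_
    rw [hst2]
    exact Finset.mem_insert_self _ _
  have hsum : ∀ n, ∀ s : Finset ℕ, s ⊆ Finset.range n → ∑ i ∈ s, G i (st i) ∈ (st n).1.1 := by
    intro n
    induction n with
    | zero =>
      intro s hs
      have : s = ∅ := by simpa using hs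
      rw [this, Finset.sum_empty]
      exact hzero 0
    | succ n ih =>
      intro s hs
      rw [hst1]
      by_cases hn : n ∈ s
      · refine Finset.mem_union_right _ (Finset.mem_image.2 ⟨∑ i ∈ s.erase n, G i (st i), ?_, ?_⟩)
        · apply ih
          intro i hi
          have h7 := hs (Finset.mem_of_mem_erase hi)
          have h8 := Finset.ne_of_mem_erase hi
          rw [Finset.mem_range] at h7 ⊢
          omega
        · exact Finset.sum_erase_add _ _ hn
      · refine Finset.mem_union_left _ (ih s fun i hi => ?_)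
        have h7 := hs hi
        rw [Finset.mem_range] at h7 ⊢
        have : i ≠ n := fun h => hn (h ▸ hi)
        omega
  have hnorm : ∀ n, ∀ f ∈ (st n).1.1, ‖f‖ ≤ 1 + ∑ i ∈ Finset.range n, (1 / 8 : ℝ) ^ (i + 1) := by
    intro n
    induction n with
    | zero =>
      intro f hf
      rw [hst0, Finset.mem_singleton] at hf
      rw [hf]
      simp
    | succ n ih =>
      intro f hf
      rw [hst1] at hf
      rw [Finset.sum_range_succ]
      have hnn : 0 ≤ ∑ i ∈ Finset.range n, (1 / 8 : ℝ) ^ (i + 1) :=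
        Finset.sum_nonneg fun i _ => (hpos i).le
      rcases Finset.mem_union.1 hf with h | h
      · have := ih f h
        have := hpos n
        linarith
      · obtain ⟨f', hf', rfl⟩ := Finset.mem_image.1 h
        have h7 := h6 n (st n) f' hf'
        have h8 := ih f' hf'
        have h9 : max ‖f'‖ 1 ≤ 1 + ∑ i ∈ Finset.range n, (1 / 8 : ℝ) ^ (i + 1) :=
          max_le h8 (by linarith)
        linarith
  have hgeo : ∀ n, ∑ i ∈ Finset.range n, (1 / 8 : ℝ) ^ (i + 1) ≤ 1 := by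
    intro n
    have h7 : ∀ i ∈ Finset.range n, (1 / 8 : ℝ) ^ (i + 1) ≤ (1 / 2) ^ i * (1 / 2) := by
      intro i _
      rw [← pow_succ]
      exact pow_le_pow_left₀ (by norm_num) (by norm_num) _
    refine (Finset.sum_le_sum h7).trans ?_
    rw [← Finset.sum_mul]
    have := sum_geometric_two_le n
    simp only [one_div] at this ⊢
    linarith
  refine ⟨fun n => G n (st n), fun n => X n (st n), fun n => h1 _ _, fun n => h2 _ _,
    fun n => h3 _ _, fun i j hij => h4 j (st j) _ (hxmem i j hij),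
    fun i j hij => h5 j (st j) _ (hgmem i j hij), fun s => ?_⟩
  obtain ⟨n, hn⟩ := s.exists_nat_subset_range
  have h7 := hnorm n _ (hsum n s hn)
  have h8 := hgeo n
  linarith

/-- functionals as limits of bounded sequences -/
theorem exists_ultralimit (g : ℕ → (E →L[ℝ] ℝ)) (R : ℝ) (hg : ∀ n, ‖g n‖ ≤ R) :
    ∃ G : E →L[ℝ] ℝ, ∀ w, Tendsto (fun n => g n w) (hyperfilter ℕ) (𝓝 (G w)) := by
  have hK := WeakDual.isCompact_closedBall (𝕜 := ℝ) (E := E) 0 R
  have h1 : ∀ n, StrongDual.toWeakDual (g n) ∈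
      (WeakDual.toStrongDual ⁻¹' Metric.closedBall (0 : StrongDual ℝ E) R) := by
    intro n
    simpa using hg n
  have h2 := (isCompact_iff_ultrafilter_le_nhds.1 hK)
    ((hyperfilter ℕ).map (fun n => StrongDual.toWeakDual (g n))) (by
    rw [le_principal_iff]
    exact Filter.mem_map.2 (Filter.Eventually.of_forall h1))
  obtain ⟨G, -, hG⟩ := h2
  refine ⟨WeakDual.toStrongDual G, fun w => ?_⟩
  have h3 : Tendsto (fun n => StrongDual.toWeakDual (g n)) (hyperfilter ℕ) (𝓝 G) := hG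
  have h4 := ((WeakDual.eval_continuous w).tendsto G).comp h3
  exact h4

/-- **the contradiction** -/
theorem core (hW : PropW E)
    (hA : ∀ η : ℝ, 0 < η → ∃ g : ℕ → (E →L[ℝ] ℝ), (∀ n, ‖g n‖ = 1) ∧ Om g η) : False := by
  classical
  obtain ⟨g, x, hg, hx, h1, h2, h3, h4⟩ := step4 hW hA
  -- the functionals tend to zero pointwise
  have hpt : ∀ z : E, Tendsto (fun n => g n z) atTop (𝓝 0) := by
    intro z
    have hb : ∀ s : Finset ℕ, |∑ i ∈ s, g i z| ≤ 2 * ‖z‖ := by
      intro s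
      have h5 := (∑ i ∈ s, g i).le_opNorm z
      rw [sum_apply, Real.norm_eq_abs] at h5
      exact h5.trans (mul_le_mul_of_nonneg_right (h4 s) (norm_nonneg _))
    have hs : Summable fun n => |g n z| := by
      refine summable_of_sum_le (fun _ => abs_nonneg _) (c := 4 * ‖z‖) fun s => ?_
      have h5 := hb (s.filter fun i => 0 ≤ g i z)
      have h6 := hb (s.filter fun i => ¬ 0 ≤ g i z)
      rw [← Finset.sum_filter_add_sum_filter_not s (fun i => 0 ≤ g i z)]
      have h7 : ∑ i ∈ s.filter (fun i => 0 ≤ g i z), |g i z| =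
          ∑ i ∈ s.filter (fun i => 0 ≤ g i z), g i z :=
        Finset.sum_congr rfl fun i hi => abs_of_nonneg (Finset.mem_filter.1 hi).2
      have h8 : ∑ i ∈ s.filter (fun i => ¬ 0 ≤ g i z), |g i z| =
          - ∑ i ∈ s.filter (fun i => ¬ 0 ≤ g i z), g i z := by
        rw [← Finset.sum_neg_distrib]
        exact Finset.sum_congr rfl fun i hi =>
          abs_of_neg (not_le.1 (Finset.mem_filter.1 hi).2)
      rw [h7, h8]
      have h9 := (abs_le.1 h5).2
      have h10 := (abs_le.1 h6).1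
      linarith
    have := hs.tendsto_atTop_zero
    exact (tendsto_zero_iff_abs_tendsto_zero _).2 this
  have hpow : Tendsto (fun n : ℕ => (1 / 8 : ℝ) ^ (n + 1)) atTop (𝓝 0) :=
    (tendsto_pow_atTop_nhds_zero_of_lt_one (by norm_num) (by norm_num)).comp
      (tendsto_add_atTop_nat 1)
  have hlim : Tendsto (fun n => g n (x n)) atTop (𝓝 1) := by
    have h5 : Tendsto (fun n : ℕ => 1 - (1 / 8 : ℝ) ^ (n + 1)) atTop (𝓝 1) := by
      simpa using (tendsto_const_nhds (x := (1 : ℝ))).sub hpow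
    refine tendsto_of_tendsto_of_tendsto_of_le_of_le h5 tendsto_const_nhds h1 fun n => ?_
    calc g n (x n) ≤ ‖g n (x n)‖ := le_abs_self _
      _ ≤ ‖g n‖ * ‖x n‖ := (g n).le_opNorm _
      _ = 1 := by rw [hg, hx, one_mul]
  have hOm : Om g 0 := by
    intro z _ b hb
    have := (hpt z).abs
    rw [abs_zero] at this
    exact (this.eventually (gt_mem_nhds hb)).mono fun n hn => hn.le
  have hweak := hW g x (fun n => (hg n).le) hx hlim ⟨0, zero_lt_one, hOm⟩
  obtain ⟨S, hS⟩ := exists_ultralimit (fun n => ∑ i ∈ Finset.range n, g i) 2 (fun n => h4 _)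
  have hSx : ∀ j, 1 / 2 ≤ S (x j) := by
    intro j
    refine ge_of_tendsto (hS (x j)) (Nat.hyperfilter_le_atTop ?_)
    filter_upwards [eventually_gt_atTop j] with n hn
    rw [sum_apply, ← Finset.add_sum_erase _ _ (Finset.mem_range.2 hn)]
    have h5 := h1 j
    have h6 : |∑ i ∈ (Finset.range n).erase j, g i (x j)| ≤ 3 / 8 := by
      refine (Finset.abs_sum_le_sum_abs _ _).trans ?_
      have h7 : ∀ i ∈ (Finset.range n).erase j, |g i (x j)| ≤ (1 / 8) ^ (i + 1) + (if i < j then (1 / 8 : ℝ) ^ (j + 1) else 0) := by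
        intro i hi
        have hij := Finset.ne_of_mem_erase hi
        rcases lt_or_gt_of_ne hij with h | h
        · rw [if_pos h]
          have := h3 i j h
          have h8 : (0 : ℝ) < (1 / 8) ^ (i + 1) := by positivity
          linarith
        · rw [if_neg (by omega), add_zero]
          exact h2 j i h
      refine (Finset.sum_le_sum h7).trans ?_
      rw [Finset.sum_add_distrib]
      have h8 : ∑ i ∈ (Finset.range n).erase j, (1 / 8 : ℝ) ^ (i + 1) ≤ 1 / 4 := by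
        refine (Finset.sum_le_sum_of_subset_of_nonneg (Finset.erase_subset _ _)
          (fun _ _ _ => by positivity)).trans ?_
        have h9 : ∀ i ∈ Finset.range n, (1 / 8 : ℝ) ^ (i + 1) ≤ (1 / 2) ^ i * (1 / 8) := by
          intro i _
          rw [pow_succ]
          exact mul_le_mul_of_nonneg_right (pow_le_pow_left₀ (by norm_num) (by norm_num) _)
            (by norm_num)
        refine (Finset.sum_le_sum h9).trans ?_
        rw [← Finset.sum_mul]
        have := sum_geometric_two_le n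
        simp only [one_div] at this ⊢
        linarith
      have h9 : ∑ i ∈ (Finset.range n).erase j, (if i < j then (1 / 8 : ℝ) ^ (j + 1) else 0) ≤ 1 / 8 := by
        rw [← Finset.sum_filter, Finset.sum_const, nsmul_eq_mul]
        have h10 : (((Finset.range n).erase j).filter fun i => i < j).card ≤ j := by
          calc _ ≤ (Finset.range j).card := Finset.card_le_card fun i hi =>
                Finset.mem_range.2 (Finset.mem_filter.1 hi).2
            _ = j := Finset.card_range j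
        have h11 : ((((Finset.range n).erase j).filter fun i => i < j).card : ℝ) ≤ j := by
          exact_mod_cast h10
        have h12 : (j : ℝ) ≤ 8 ^ j := by
          have : j < 8 ^ j := Nat.lt_pow_self (by norm_num)
          exact_mod_cast this.le
        calc _ ≤ (8 : ℝ) ^ j * (1 / 8) ^ (j + 1) := by
              refine mul_le_mul_of_nonneg_right (h11.trans h12) (by positivity)
          _ = 1 / 8 := by
              rw [pow_succ, ← mul_assoc, ← mul_pow]
              norm_num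
      linarith
    have h7 := (abs_le.1 h6).1
    have h8 : (1 / 8 : ℝ) ^ (j + 1) ≤ 1 / 8 := by
      rw [pow_succ]
      have : (1 / 8 : ℝ) ^ j ≤ 1 := pow_le_one₀ (by norm_num) (by norm_num)
      linarith
    linarith
  have h5 := ge_of_tendsto (hweak S) (Eventually.of_forall hSx)
  norm_num at h5

end Pool.Agent.H791W
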