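import Pool.Agent.H791W.W1
import Pool.Agent.Helper902.NARos

set_option autoImplicit false

/-!
# Rosenthal's dichotomy
-/

namespace Pool.Agent.H791W

open Filter Topology

variable {E : Type*} [NormedAddCommGroup E] [NormedSpace ℝ E]

/-- finite stabilisation of oscillation levels -/
theorem levels {Ω : Type*} (A B : ℕ → ℕ → Set Ω) (k : ℕ) :
    (∃ i < k, ∃ M₀ : Set ℕ, M₀.Infinite ∧ ∀ M : Set ℕ, M ⊆ M₀ → M.Infinite →
      ∃ y : Ω, {n | n ∈ M ∧ y ∈ A i n}.Infinite ∧ {n | n ∈ M ∧ y ∈ B i n}.Infinite) ∨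
    (∃ M : Set ℕ, M.Infinite ∧ ∀ i < k, ¬ ∃ y : Ω, {n | n ∈ M ∧ y ∈ A i n}.Infinite ∧
      {n | n ∈ M ∧ y ∈ B i n}.Infinite) := by
  induction k with
  | zero => exact Or.inr ⟨Set.univ, Set.infinite_univ, fun i hi => absurd hi (Nat.not_lt_zero i)⟩
  | succ k ih =>
    rcases ih with ⟨i, hi, M₀, h1, h2⟩ | ⟨M, hM, h2⟩
    · exact Or.inl ⟨i, by omega, M₀, h1, h2⟩
    · by_cases hex : ∀ M' : Set ℕ, M' ⊆ M → M'.Infinite →
        ∃ y : Ω, {n | n ∈ M' ∧ y ∈ A k n}.Infinite ∧ {n | n ∈ M' ∧ y ∈ B k n}.Infinite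
      · exact Or.inl ⟨k, by omega, M, hM, hex⟩
      · push Not at hex
        obtain ⟨M', hM', hinf, hno⟩ := hex
        refine Or.inr ⟨M', hinf, fun i hi => ?_⟩
        rintro ⟨y, hy1, hy2⟩
        rcases Nat.lt_succ_iff_lt_or_eq.1 hi with h | h
        · exact h2 i h ⟨y, hy1.mono fun n hn => ⟨hM' hn.1, hn.2⟩, hy2.mono fun n hn => ⟨hM' hn.1, hn.2⟩⟩
        · subst h
          exact hy2 (hno y hy1)

/-- the dichotomy for a bounded sequence of functionals -/
theorem dich (f : ℕ → (E →L[ℝ] ℝ)) (hf : ∀ n, ‖f n‖ ≤ 1) {δ : ℝ} (hδ : 0 < δ) :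
    (∃ φ : ℕ → ℕ, StrictMono φ ∧ Om (fun i => f (φ (2 * i + 1)) - f (φ (2 * i))) (3 * δ)) ∨
    (∃ φ : ℕ → ℕ, StrictMono φ ∧ ∀ (n : ℕ) (a : ℕ → ℝ),
      (δ / 2) * ∑ j ∈ Finset.range n, |a j| ≤ ‖∑ j ∈ Finset.range n, a j • f (φ j)‖) := by
  classical
  obtain ⟨K, hK⟩ := exists_nat_gt (2 / δ + 1)
  let r : ℕ → ℝ := fun i => -1 + i * δ
  let A : ℕ → ℕ → Set {z : E // ‖z‖ ≤ 1} := fun i n => {z | r i + δ < f n z.1}
  let B : ℕ → ℕ → Set {z : E // ‖z‖ ≤ 1} := fun i n => {z | f n z.1 < r i}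
  have hbd : ∀ n (z : E), ‖z‖ ≤ 1 → |f n z| ≤ 1 := by
    intro n z hz
    calc |f n z| ≤ ‖f n‖ * ‖z‖ := (f n).le_opNorm z
      _ ≤ 1 * 1 := mul_le_mul (hf n) hz (norm_nonneg _) zero_le_one
      _ = 1 := one_mul 1
  rcases levels A B K with ⟨i, -, M₀, hM₀, hosc⟩ | ⟨M, hM, hno⟩
  · -- the `ℓ₁` case
    right
    obtain ⟨φ, hφ, -, hind⟩ := Pool.Agent.Helper902.NA.rosenthal_independent (A i) (B i) M₀ hM₀ hosc
    refine ⟨φ, hφ, fun n a => ?_⟩
    obtain ⟨y₁, hy₁⟩ := hind n {j | 0 ≤ a j}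
    obtain ⟨y₂, hy₂⟩ := hind n {j | ¬ (0 ≤ a j)}
    have h1 : δ * ∑ j ∈ Finset.range n, |a j| ≤
        (∑ j ∈ Finset.range n, a j • f (φ j)) (y₁.1 - y₂.1) := by
      rw [sum_apply, Finset.mul_sum]
      apply Finset.sum_le_sum
      intro j hj
      have hj' : j < n := Finset.mem_range.1 hj
      rw [smul_apply, smul_eq_mul, map_sub]
      by_cases ha : 0 ≤ a j
      · have h3 : r i + δ < f (φ j) y₁.1 := (hy₁ j hj').1 ha
        have h4 : f (φ j) y₂.1 < r i := (hy₂ j hj').2 (fun h => h ha)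
        rw [abs_of_nonneg ha, mul_comm]
        exact mul_le_mul_of_nonneg_left (by linarith) ha
      · have h3 : f (φ j) y₁.1 < r i := (hy₁ j hj').2 ha
        have h4 : r i + δ < f (φ j) y₂.1 := (hy₂ j hj').1 ha
        push Not at ha
        rw [abs_of_neg ha]
        nlinarith
    have h2 : (∑ j ∈ Finset.range n, a j • f (φ j)) (y₁.1 - y₂.1) ≤
        2 * ‖∑ j ∈ Finset.range n, a j • f (φ j)‖ := by
      calc (∑ j ∈ Finset.range n, a j • f (φ j)) (y₁.1 - y₂.1)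
          ≤ ‖(∑ j ∈ Finset.range n, a j • f (φ j)) (y₁.1 - y₂.1)‖ := le_abs_self _
        _ ≤ ‖∑ j ∈ Finset.range n, a j • f (φ j)‖ * ‖y₁.1 - y₂.1‖ :=
            (∑ j ∈ Finset.range n, a j • f (φ j)).le_opNorm _
        _ ≤ ‖∑ j ∈ Finset.range n, a j • f (φ j)‖ * 2 := by
            apply mul_le_mul_of_nonneg_left _ (norm_nonneg _)
            have := norm_sub_le y₁.1 y₂.1
            linarith [y₁.2, y₂.2]
        _ = _ := mul_comm _ _
    linarith
  · left
    obtain ⟨φ, hφ, hφM⟩ : ∃ φ : ℕ → ℕ, StrictMono φ ∧ ∀ n, φ n ∈ M :=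
      ⟨Nat.nth (· ∈ M), Nat.nth_strictMono hM, fun n => Nat.nth_mem_of_infinite hM n⟩
    refine ⟨φ, hφ, ?_⟩
    intro z hz b hb
    by_contra hcon
    have h1 : ∃ᶠ i in atTop, b < |(f (φ (2 * i + 1)) - f (φ (2 * i))) z| := by
      intro h
      apply hcon
      filter_upwards [h] with n hn
      exact not_lt.1 hn
    -- levels separating two values
    have hsep : ∀ u v : ℝ, |u| ≤ 1 → 3 * δ < v - u → ∃ j < K, u < r j ∧ r j + δ < v := by
      intro u v hu huv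
      have hu' := abs_le.1 hu
      refine ⟨⌊(u + 1) / δ⌋₊ + 1, ?_, ?_, ?_⟩
      · have h3 : ((⌊(u + 1) / δ⌋₊ : ℕ) : ℝ) ≤ (u + 1) / δ :=
          Nat.floor_le (div_nonneg (by linarith) hδ.le)
        have h4 : (u + 1) / δ ≤ 2 / δ := div_le_div_of_nonneg_right (by linarith) hδ.le
        have h5 : ((⌊(u + 1) / δ⌋₊ + 1 : ℕ) : ℝ) < K := by
          push_cast
          linarith
        exact_mod_cast h5
      · have h3 : (u + 1) / δ < ((⌊(u + 1) / δ⌋₊ : ℕ) : ℝ) + 1 := Nat.lt_floor_add_one _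
        rw [div_lt_iff₀ hδ] at h3
        simp only [r]
        push_cast
        linarith
      · have h3 : ((⌊(u + 1) / δ⌋₊ : ℕ) : ℝ) ≤ (u + 1) / δ :=
          Nat.floor_le (div_nonneg (by linarith) hδ.le)
        rw [le_div_iff₀ hδ] at h3
        simp only [r]
        push_cast
        linarith
    have h2 : ∃ᶠ i in atTop, ∃ j < K,
        (f (φ (2 * i)) z < r j ∧ r j + δ < f (φ (2 * i + 1)) z) ∨
        (f (φ (2 * i + 1)) z < r j ∧ r j + δ < f (φ (2 * i)) z) := by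
      refine h1.mono fun i hi => ?_
      rw [sub_apply] at hi
      rcases lt_abs.1 (lt_trans hb hi) with h | h
      · obtain ⟨j, hj, h3, h4⟩ := hsep _ _ (hbd _ z hz) h
        exact ⟨j, hj, Or.inl ⟨h3, h4⟩⟩
      · obtain ⟨j, hj, h3, h4⟩ := hsep (f (φ (2 * i + 1)) z) (f (φ (2 * i)) z) (hbd _ z hz)
          (by linarith)
        exact ⟨j, hj, Or.inr ⟨h3, h4⟩⟩
    have h3 : ∃ j < K, ∃ᶠ i in atTop,
        (f (φ (2 * i)) z < r j ∧ r j + δ < f (φ (2 * i + 1)) z) ∨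
        (f (φ (2 * i + 1)) z < r j ∧ r j + δ < f (φ (2 * i)) z) := by
      by_contra hcon2
      push Not at hcon2
      apply h2
      have h4 : ∀ᶠ i in atTop, ∀ j ∈ Finset.range K,
          ¬ ((f (φ (2 * i)) z < r j ∧ r j + δ < f (φ (2 * i + 1)) z) ∨
          (f (φ (2 * i + 1)) z < r j ∧ r j + δ < f (φ (2 * i)) z)) :=
        (eventually_all_finset _).2 fun j hj => by
          have := hcon2 j (Finset.mem_range.1 hj)
          filter_upwards [this] with i hi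
          push Not
          exact hi
      filter_upwards [h4] with i hi
      rintro ⟨j, hj, h⟩
      exact hi j (Finset.mem_range.2 hj) h
    obtain ⟨j, hj, h4⟩ := h3
    have h5 := Nat.frequently_atTop_iff_infinite.1 h4
    have hinjφ : Function.Injective φ := hφ.injective
    refine hno j hj ⟨⟨z, hz⟩, ?_, ?_⟩
    · -- infinitely many indices above
      let g : ℕ → ℕ := fun i => if r j + δ < f (φ (2 * i + 1)) z then φ (2 * i + 1) else φ (2 * i)
      have hg : Set.InjOn g {i | (f (φ (2 * i)) z < r j ∧ r j + δ < f (φ (2 * i + 1)) z) ∨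
          (f (φ (2 * i + 1)) z < r j ∧ r j + δ < f (φ (2 * i)) z)} := by
        intro a _ b _ hab
        simp only [g] at hab
        split_ifs at hab <;> have := hinjφ hab <;> omega
      refine (h5.image hg).mono ?_
      rintro _ ⟨i, hi, rfl⟩
      simp only [g]
      split_ifs with hc
      · exact ⟨hφM _, hc⟩
      · refine ⟨hφM _, ?_⟩
        rcases hi with hi | hi
        · exact absurd hi.2 hc
        · exact hi.2
    · let g : ℕ → ℕ := fun i => if f (φ (2 * i + 1)) z < r j then φ (2 * i + 1) else φ (2 * i)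
      have hg : Set.InjOn g {i | (f (φ (2 * i)) z < r j ∧ r j + δ < f (φ (2 * i + 1)) z) ∨
          (f (φ (2 * i + 1)) z < r j ∧ r j + δ < f (φ (2 * i)) z)} := by
        intro a _ b _ hab
        simp only [g] at hab
        split_ifs at hab <;> have := hinjφ hab <;> omega
      refine (h5.image hg).mono ?_
      rintro _ ⟨i, hi, rfl⟩
      simp only [g]
      split_ifs with hc
      · exact ⟨hφM _, hc⟩
      · refine ⟨hφM _, ?_⟩
        rcases hi with hi | hi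
        · exact hi.1
        · exact absurd hi.1 hc

end Pool.Agent.H791W
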