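import Pool.Agent.H791W.W2
import Pool.Agent.H791R2.A

set_option autoImplicit false

/-!
# Block sequences and stabilisation
-/

namespace Pool.Agent.H791W

open Filter Topology Pool.Agent.H791R2.Cp

variable {E : Type*} [NormedAddCommGroup E] [NormedSpace ℝ E]

/-- combinations -/
noncomputable def lc {V : Type*} [AddCommMonoid V] [Module ℝ V] (h : ℕ → V) :
    (ℕ →₀ ℝ) →ₗ[ℝ] V := Finsupp.linearCombination ℝ h

lemma lc_single {V : Type*} [AddCommMonoid V] [Module ℝ V] (h : ℕ → V) (n : ℕ) (a : ℝ) :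
    lc h (Finsupp.single n a) = a • h n := by simp [lc]

lemma lc_eq_sum {V : Type*} [AddCommMonoid V] [Module ℝ V] (h : ℕ → V) (b : ℕ →₀ ℝ) :
    lc h b = ∑ n ∈ b.support, b n • h n := by
  simp [lc, Finsupp.linearCombination_apply, Finsupp.sum]

lemma lc_lc {V : Type*} [AddCommMonoid V] [Module ℝ V] (h : ℕ → V) (b : ℕ → (ℕ →₀ ℝ))
    (x : ℕ →₀ ℝ) : lc (fun j => lc h (b j)) x = lc h (lc b x) := by
  rw [lc_eq_sum, lc_eq_sum b, map_sum]
  exact Finset.sum_congr rfl fun n _ => by rw [map_smul]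

lemma lc_congr {V : Type*} [AddCommMonoid V] [Module ℝ V] {h h' : ℕ → V} {b : ℕ →₀ ℝ}
    (H : ∀ n ∈ b.support, h n = h' n) : lc h b = lc h' b := by
  rw [lc_eq_sum, lc_eq_sum]
  exact Finset.sum_congr rfl fun n hn => by rw [H n hn]

/-- good (successive, normalised) sequences -/
structure Gs (d : ℕ → (ℕ →₀ ℝ)) : Prop where
  nrm : ∀ n, one (d n) = 1
  suc : ∀ m n, m < n → ∀ i ∈ (d m).support, ∀ j ∈ (d n).support, i < j

/-- tail sequences -/
structure Tl (b : ℕ → (ℕ →₀ ℝ)) : Prop where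
  nrm : ∀ n, one (b n) = 1
  tail : ∀ n, ∀ i ∈ (b n).support, n ≤ i

lemma supp_nonempty {x : ℕ →₀ ℝ} (h : one x = 1) : x.support.Nonempty := by
  rw [Finset.nonempty_iff_ne_empty]
  intro h0
  rw [one_eq_sum, h0, Finset.sum_empty] at h
  exact zero_ne_one h

lemma Gs.tl {d : ℕ → (ℕ →₀ ℝ)} (h : Gs d) : Tl d := by
  refine ⟨h.nrm, fun n => ?_⟩
  induction n with
  | zero => exact fun i _ => Nat.zero_le i
  | succ n ih =>
    intro i hi
    obtain ⟨j, hj⟩ := supp_nonempty (h.nrm n)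
    have h1 := ih j hj
    have h2 := h.suc n (n + 1) (Nat.lt_succ_self n) j hj i hi
    omega

lemma one_add_disj {x y : ℕ →₀ ℝ} (h : Disjoint x.support y.support) :
    one (x + y) = one x + one y := by
  unfold one
  exact Finsupp.sum_add_index_of_disjoint h _

lemma supp_sum_sub {ι : Type*} (s : Finset ι) (y : ι → (ℕ →₀ ℝ)) {i : ℕ}
    (hi : i ∈ (∑ k ∈ s, y k).support) : ∃ k ∈ s, i ∈ (y k).support := by
  classical
  by_contra hcon
  push Not at hcon
  rw [Finsupp.mem_support_iff, Finsupp.finsetSum_apply] at hi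
  exact hi (Finset.sum_eq_zero fun k hk => Finsupp.notMem_support_iff.1 (hcon k hk))

lemma one_sum_disj {ι : Type*} (s : Finset ι) (y : ι → (ℕ →₀ ℝ))
    (h : ∀ k ∈ s, ∀ l ∈ s, k ≠ l → Disjoint (y k).support (y l).support) :
    one (∑ k ∈ s, y k) = ∑ k ∈ s, one (y k) := by
  classical
  induction s using Finset.induction_on with
  | empty => simp [one_zero]
  | insert a s ha ih =>
    rw [Finset.sum_insert ha, Finset.sum_insert ha, one_add_disj, ih]
    · exact fun k hk l hl => h k (Finset.mem_insert_of_mem hk) l (Finset.mem_insert_of_mem hl)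
    · rw [Finset.disjoint_left]
      intro i hi hi'
      obtain ⟨k, hk, hki⟩ := supp_sum_sub s y hi'
      have h1 := h a (Finset.mem_insert_self _ _) k (Finset.mem_insert_of_mem hk)
        (fun h => ha (h ▸ hk))
      exact (Finset.disjoint_left.1 h1) hi hki

lemma supp_lc {d : ℕ → (ℕ →₀ ℝ)} {b : ℕ →₀ ℝ} {i : ℕ} (hi : i ∈ (lc d b).support) :
    ∃ p ∈ b.support, i ∈ (d p).support := by
  rw [lc_eq_sum] at hi
  obtain ⟨p, hp, h⟩ := supp_sum_sub _ _ hi
  exact ⟨p, hp, Finsupp.support_smul h⟩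

lemma Gs.disj {d : ℕ → (ℕ →₀ ℝ)} (h : Gs d) {m n : ℕ} (hmn : m ≠ n) :
    Disjoint (d m).support (d n).support := by
  rw [Finset.disjoint_left]
  intro i hi hi'
  rcases lt_or_gt_of_ne hmn with h1 | h1
  · exact lt_irrefl _ (h.suc m n h1 i hi i hi')
  · exact lt_irrefl _ (h.suc n m h1 i hi' i hi)

lemma Gs.one_lc {d : ℕ → (ℕ →₀ ℝ)} (h : Gs d) (b : ℕ →₀ ℝ) : one (lc d b) = one b := by
  rw [lc_eq_sum, one_sum_disj, one_eq_sum]
  · refine Finset.sum_congr rfl fun n _ => ?_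
    rw [one_smul', h.nrm, mul_one]
  · intro k _ l _ hkl
    refine Finset.disjoint_of_subset_left Finsupp.support_smul
      (Finset.disjoint_of_subset_right Finsupp.support_smul (h.disj hkl))

lemma Gs.comp {d b : ℕ → (ℕ →₀ ℝ)} (hd : Gs d) (hb : Gs b) : Gs fun j => lc d (b j) := by
  refine ⟨fun n => by rw [hd.one_lc, hb.nrm], fun m n hmn i hi j hj => ?_⟩
  obtain ⟨p, hp, hip⟩ := supp_lc hi
  obtain ⟨q, hq, hjq⟩ := supp_lc hj
  exact hd.suc p q (hb.suc m n hmn p hp q hq) i hip j hjq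

lemma Gs.comp_tl {d b : ℕ → (ℕ →₀ ℝ)} (hd : Gs d) (hb : Tl b) : Tl fun j => lc d (b j) := by
  refine ⟨fun n => by rw [hd.one_lc, hb.nrm], fun n i hi => ?_⟩
  obtain ⟨p, hp, hip⟩ := supp_lc hi
  exact (hb.tail n p hp).trans (hd.tl.tail p i hip)

lemma Gs.single : Gs fun n => Finsupp.single n 1 := by
  refine ⟨fun n => by rw [one_single, abs_one], fun m n hmn i hi j hj => ?_⟩
  have h1 := Finsupp.support_single_subset hi
  have h2 := Finsupp.support_single_subset hj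
  rw [Finset.mem_singleton] at h1 h2
  omega

/-! ### Asymptotic bounds -/

lemma Om.mono {h : ℕ → (E →L[ℝ] ℝ)} {a a' : ℝ} (H : Om h a) (haa : a ≤ a') : Om h a' :=
  fun z hz b hb => H z hz b (lt_of_le_of_lt haa hb)

lemma Om.of_forall_gt {h : ℕ → (E →L[ℝ] ℝ)} {a : ℝ} (H : ∀ a' > a, Om h a') : Om h a := by
  intro z hz b hb
  exact H ((a + b) / 2) (by linarith) z hz b (by linarith)

lemma Om.congr {h h' : ℕ → (E →L[ℝ] ℝ)} {a : ℝ} (H : Om h a) (he : ∀ᶠ n in atTop, h n = h' n) :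
    Om h' a := by
  intro z hz b hb
  filter_upwards [H z hz b hb, he] with n h1 h2
  rwa [← h2]

lemma Om.nonneg {h : ℕ → (E →L[ℝ] ℝ)} {a : ℝ} (H : Om h a) : 0 ≤ a := by
  by_contra hcon
  push Not at hcon
  obtain ⟨n, hn⟩ := (H 0 (by simp) (a / 2) (by linarith)).exists
  have := abs_nonneg (h n 0)
  linarith

lemma Om.tail {h : ℕ → (E →L[ℝ] ℝ)} {a : ℝ} (H : Om h a) {b : ℕ → (ℕ →₀ ℝ)} (hb : Tl b) :
    Om (fun j => lc h (b j)) a := by
  intro z hz c hc
  obtain ⟨N, hN⟩ := eventually_atTop.1 (H z hz c hc)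
  filter_upwards [eventually_ge_atTop N] with j hj
  show |lc h (b j) z| ≤ c
  rw [lc_eq_sum, sum_apply]
  have h1 : ∑ n ∈ (b j).support, |b j n| = 1 := by
    rw [← one_eq_sum]
    exact hb.nrm j
  calc |∑ n ∈ (b j).support, (b j n • h n) z| ≤ ∑ n ∈ (b j).support, |(b j n • h n) z| :=
        Finset.abs_sum_le_sum_abs _ _
    _ ≤ ∑ n ∈ (b j).support, |b j n| * c := by
        refine Finset.sum_le_sum fun n hn => ?_
        rw [smul_apply, smul_eq_mul, abs_mul]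
        exact mul_le_mul_of_nonneg_left (hN n (hj.trans (hb.tail j n hn))) (abs_nonneg _)
    _ = c := by rw [← Finset.sum_mul, h1, one_mul]

/-- tail combinations with a small asymptotic bound exist -/
def Sm (h : ℕ → (E →L[ℝ] ℝ)) (a : ℝ) : Prop := ∃ b, Tl b ∧ Om (fun j => lc h (b j)) a

lemma sm_sub {h h' : ℕ → (E →L[ℝ] ℝ)} {b : ℕ → (ℕ →₀ ℝ)} (hb : Gs b)
    (he : ∀ᶠ j in atTop, h' j = lc h (b j)) {a : ℝ} (H : Sm h' a) : Sm h a := by
  obtain ⟨b', hb', hO⟩ := H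
  refine ⟨fun j => lc b (b' j), hb.comp_tl hb', hO.congr ?_⟩
  obtain ⟨N, hN⟩ := eventually_atTop.1 he
  filter_upwards [eventually_ge_atTop N] with j hj
  rw [← lc_lc]
  exact lc_congr fun n hn => hN n (hj.trans (hb'.tail j n hn))

/-- passing to a good subsequence -/
lemma Sm.gs {h : ℕ → (E →L[ℝ] ℝ)} {a : ℝ} (H : Sm h a) :
    ∃ b, Gs b ∧ Om (fun j => lc h (b j)) a := by
  obtain ⟨b, hb, hO⟩ := H
  let nx : ℕ → ℕ := fun j => (b j).support.sup id + 1
  obtain ⟨φ, hφ⟩ : ∃ φ : ℕ → ℕ, ∀ k, φ (k + 1) = nx (φ k) :=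
    ⟨fun k => Nat.rec (motive := fun _ => ℕ) 0 (fun _ j => nx j) k, fun k => rfl⟩
  have hle : ∀ k, ∀ i ∈ (b (φ k)).support, i < φ (k + 1) := by
    intro k i hi
    rw [hφ]
    exact Nat.lt_succ_of_le (Finset.le_sup (f := id) hi)
  have hmono : StrictMono φ := by
    refine strictMono_nat_of_lt_succ fun k => ?_
    obtain ⟨i, hi⟩ := supp_nonempty (hb.nrm (φ k))
    exact (hb.tail _ i hi).trans_lt (hle k i hi)
  refine ⟨fun k => b (φ k), ⟨fun n => hb.nrm _, fun m n hmn i hi j hj => ?_⟩, ?_⟩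
  · have h1 := hle m i hi
    have h2 : φ (m + 1) ≤ φ n := hmono.monotone hmn
    have h3 := hb.tail _ j hj
    omega
  · intro z hz c hc
    exact hmono.tendsto_atTop.eventually (hO z hz c hc)

/-- the infimum -/
noncomputable def ep (h : ℕ → (E →L[ℝ] ℝ)) : ℝ := sInf {a | Sm h a}

lemma sm_nonneg {h : ℕ → (E →L[ℝ] ℝ)} {a : ℝ} (H : Sm h a) : 0 ≤ a := by
  obtain ⟨b, -, hO⟩ := H
  exact hO.nonneg

lemma bddBelow_sm (h : ℕ → (E →L[ℝ] ℝ)) : BddBelow {a | Sm h a} := ⟨0, fun _ ha => sm_nonneg ha⟩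

lemma om_one {h : ℕ → (E →L[ℝ] ℝ)} (hh : ∀ n, ‖h n‖ ≤ 1) : Om h 1 := by
  intro z hz b hb
  refine Eventually.of_forall fun n => ?_
  calc |h n z| ≤ ‖h n‖ * ‖z‖ := (h n).le_opNorm z
    _ ≤ 1 * 1 := mul_le_mul (hh n) hz (norm_nonneg _) zero_le_one
    _ ≤ b := by linarith

lemma sm_one {h : ℕ → (E →L[ℝ] ℝ)} (hh : ∀ n, ‖h n‖ ≤ 1) : Sm h 1 :=
  ⟨_, Gs.single.tl, (om_one hh).tail Gs.single.tl⟩

lemma norm_lc_le {h : ℕ → (E →L[ℝ] ℝ)} (hh : ∀ n, ‖h n‖ ≤ 1) (b : ℕ →₀ ℝ) : ‖lc h b‖ ≤ one b := by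
  rw [lc_eq_sum, one_eq_sum]
  refine (norm_sum_le _ _).trans (Finset.sum_le_sum fun n _ => ?_)
  rw [norm_smul, Real.norm_eq_abs]
  exact mul_le_of_le_one_right (abs_nonneg _) (hh n)

/-- one step -/
lemma ep_step {h : ℕ → (E →L[ℝ] ℝ)} (hh : ∀ n, ‖h n‖ ≤ 1) {τ : ℝ} (hτ : 0 < τ) :
    ∃ b, Gs b ∧ Om (fun j => lc h (b j)) (ep h + τ) := by
  obtain ⟨a, ha, hlt⟩ := exists_lt_of_csInf_lt ⟨1, sm_one hh⟩ (show ep h < ep h + τ by linarith)
  obtain ⟨b, hb, hO⟩ := Sm.gs ha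
  exact ⟨b, hb, hO.mono hlt.le⟩

/-- **Stabilisation.** -/
theorem stabilise (f : ℕ → (E →L[ℝ] ℝ)) (hf : ∀ n, ‖f n‖ ≤ 1) :
    ∃ (h : ℕ → (E →L[ℝ] ℝ)) (ε : ℝ), (∀ n, ‖h n‖ ≤ 1) ∧ ep f ≤ ε ∧ Om h ε ∧
      ∀ a, Sm h a → ε ≤ a := by
  classical
  let S := {h : ℕ → (E →L[ℝ] ℝ) // ∀ n, ‖h n‖ ≤ 1}
  have hstep : ∀ (n : ℕ) (h : S), ∃ b, Gs b ∧ Om (fun j => lc h.1 (b j)) (ep h.1 + (1 / 2) ^ n) :=
    fun n h => ep_step h.2 (by positivity)
  choose B hB1 hB2 using hstep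
  let nx : ℕ → S → S := fun n h => ⟨fun j => lc h.1 (B n h j), fun j =>
    (norm_lc_le h.2 _).trans (by rw [(hB1 n h).nrm])⟩
  obtain ⟨H, hH0, hH⟩ : ∃ H : ℕ → S, H 0 = ⟨f, hf⟩ ∧ ∀ n, H (n + 1) = nx n (H n) :=
    ⟨fun n => Nat.rec (motive := fun _ => S) ⟨f, hf⟩ nx n, rfl, fun n => rfl⟩
  set b : ℕ → ℕ → (ℕ →₀ ℝ) := fun n => B n (H n) with hbdef
  have hb : ∀ n, Gs (b n) := fun n => hB1 _ _
  have hHs : ∀ n j, (H (n + 1)).1 j = lc (H n).1 (b n j) := fun n j => by rw [hH]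
  have hO : ∀ n, Om (H (n + 1)).1 (ep (H n).1 + (1 / 2) ^ n) := fun n => by
    rw [hH]
    exact hB2 n (H n)
  -- compositions
  obtain ⟨β, hβ0, hβs⟩ : ∃ β : ℕ → ℕ → ℕ → (ℕ →₀ ℝ), (∀ k j, β k 0 j = Finsupp.single j 1) ∧
      ∀ k n j, β k (n + 1) j = lc (β k n) (b (k + n) j) :=
    ⟨fun k n => Nat.rec (motive := fun _ => ℕ → (ℕ →₀ ℝ)) (fun j => Finsupp.single j 1)
      (fun n g j => lc g (b (k + n) j)) n, fun k j => rfl, fun k n j => rfl⟩
  have hβG : ∀ k n, Gs (β k n) := by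
    intro k n
    induction n with
    | zero =>
      have : β k 0 = fun j => Finsupp.single j 1 := funext fun j => hβ0 k j
      rw [this]
      exact Gs.single
    | succ n ih =>
      have : β k (n + 1) = fun j => lc (β k n) (b (k + n) j) := funext fun j => hβs k n j
      rw [this]
      exact ih.comp (hb _)
  have hβH : ∀ k n j, (H (k + n)).1 j = lc (H k).1 (β k n j) := by
    intro k n
    induction n with
    | zero =>
      intro j
      rw [hβ0, lc_single, one_smul, add_zero]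
    | succ n ih =>
      intro j
      rw [← add_assoc, hHs, hβs, ← lc_lc]
      exact lc_congr fun p _ => ih p
  have hβsupp : ∀ k n m, n ≤ m → ∀ q, ∀ i ∈ (β k m q).support, ∃ p ≥ q, i ∈ (β k n p).support := by
    intro k n m hnm
    induction m, hnm using Nat.le_induction with
    | base => exact fun q i hi => ⟨q, le_rfl, hi⟩
    | succ m hm ih =>
      intro q i hi
      rw [hβs] at hi
      obtain ⟨p, hp, hip⟩ := supp_lc hi
      obtain ⟨p', hp', hip'⟩ := ih p i hip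
      exact ⟨p', ((hb _).tl.tail q p hp).trans hp', hip'⟩
  -- the diagonal sequence
  set D : ℕ → (E →L[ℝ] ℝ) := fun n => (H n).1 n with hD
  have hDsub : ∀ k, ∃ c, Gs c ∧ ∀ᶠ j in atTop, D j = lc (H k).1 (c j) := by
    intro k
    refine ⟨fun m => if m < k then Finsupp.single m 1 else β k (m - k) m, ⟨fun m => ?_, ?_⟩, ?_⟩
    · by_cases hm : m < k
      · simp only [if_pos hm]
        rw [one_single, abs_one]
      · simp only [if_neg hm]
        exact (hβG k _).nrm m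
    · intro m n hmn i hi j hj
      by_cases hn : n < k
      · have hm : m < k := hmn.trans hn
        simp only [if_pos hn, if_pos hm] at hi hj
        exact Gs.single.suc m n hmn i hi j hj
      · simp only [if_neg hn] at hj
        by_cases hm : m < k
        · simp only [if_pos hm] at hi
          have h1 := Finsupp.support_single_subset hi
          rw [Finset.mem_singleton] at h1
          have h2 := (hβG k (n - k)).tl.tail n j hj
          omega
        · simp only [if_neg hm] at hi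
          obtain ⟨p, hp, hjp⟩ := hβsupp k (m - k) (n - k) (by omega) n j hj
          exact (hβG k (m - k)).suc m p (by omega) i hi j hjp
    · filter_upwards [eventually_ge_atTop k] with j hj
      rw [if_neg (not_lt.2 hj), ← hβH, hD]
      have : k + (j - k) = j := by omega
      rw [this]
  have hepmono : ∀ n, ep (H n).1 ≤ ep (H (n + 1)).1 := by
    intro n
    refine csInf_le_csInf (bddBelow_sm _) ⟨1, sm_one (H (n + 1)).2⟩ fun a ha => ?_
    exact sm_sub (hb n) (Eventually.of_forall fun j => hHs n j) ha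
  have hepmono' : Monotone fun n => ep (H n).1 := monotone_nat_of_le_succ hepmono
  have hep1 : ∀ n, ep (H n).1 ≤ 1 := fun n => csInf_le (bddBelow_sm _) (sm_one (H n).2)
  have hbdd : BddAbove (Set.range fun n => ep (H n).1) := ⟨1, by rintro _ ⟨n, rfl⟩; exact hep1 n⟩
  set ε := ⨆ n, ep (H n).1 with hε
  refine ⟨D, ε, fun n => (H n).2 n, ?_, ?_, ?_⟩
  · have := le_ciSup hbdd 0
    simp only [hH0] at this
    exact this
  · refine Om.of_forall_gt fun a' ha' => ?_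
    obtain ⟨n, hn⟩ := exists_pow_lt_of_lt_one (show 0 < a' - ε by linarith)
      (show (1 / 2 : ℝ) < 1 by norm_num)
    obtain ⟨c, hc, he⟩ := hDsub (n + 1)
    have h1 := ((hO n).tail hc.tl).congr (he.mono fun j hj => hj.symm)
    refine h1.mono ?_
    have := le_ciSup hbdd n
    linarith
  · intro a ha
    refine ciSup_le fun k => ?_
    obtain ⟨c, hc, he⟩ := hDsub k
    exact csInf_le (bddBelow_sm _) (sm_sub hc he ha)

end Pool.Agent.H791W
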