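import Pool.Agent.H791W.W3

set_option autoImplicit false

/-!
# The tree
-/

namespace Pool.Agent.H791W

open Filter Topology Pool.Agent.H791R2.Cp

variable {E : Type*} [NormedAddCommGroup E] [NormedSpace ℝ E]

/-- signs -/
def sg (s : Bool) : ℝ := if s then 1 else -1

lemma sg_true : sg true = 1 := rfl
lemma sg_false : sg false = -1 := rfl

lemma abs_sg (s : Bool) : |sg s| = 1 := by cases s <;> simp [sg]

lemma sg_mul_self (s : Bool) : sg s * sg s = 1 := by cases s <;> simp [sg]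

/-- one step of the tree, indexed version -/
lemma tree_step {h : ℕ → (E →L[ℝ] ℝ)} {ε : ℝ} (hε : 0 < ε) (hO : Om h ε)
    (hst : ∀ a, Sm h a → ε ≤ a) {ι : Type*} [Fintype ι] [Nonempty ι] (A : ι → Set ℕ)
    (hinf : ∀ i, (A i).Infinite) (hdis : ∀ i j, i ≠ j → Disjoint (A i) (A j)) :
    ∃ z : E, ‖z‖ ≤ 1 ∧ ∃ A' : ι → Bool → Set ℕ, (∀ i s, (A' i s).Infinite) ∧
      (∀ i s, A' i s ⊆ A i) ∧ (∀ i, Disjoint (A' i true) (A' i false)) ∧
      ∀ i s, ∀ n ∈ A' i s, ε / 2 ≤ sg s * h n z := by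
  classical
  -- enumerations
  let α : ι → ℕ → ℕ := fun i => Nat.nth (· ∈ A i)
  have hαm : ∀ i, StrictMono (α i) := fun i => Nat.nth_strictMono (hinf i)
  have hαA : ∀ i n, α i n ∈ A i := fun i n => Nat.nth_mem_of_infinite (hinf i) n
  -- the index of the term
  let c : Bool → ℕ := fun s => if s then 0 else 1
  let g : ℕ → ι × Bool → ℕ := fun j k => α k.1 (2 * j + c k.2)
  have hginj : ∀ j, Function.Injective (g j) := by
    rintro j ⟨i, s⟩ ⟨i', s'⟩ hh
    have hi : i = i' := by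
      by_contra hne
      exact (Set.disjoint_left.1 (hdis i i' hne)) (hαA i _) (by
        have : g j (i, s) = g j (i', s') := hh
        show α i (2 * j + c s) ∈ A i'
        have h2 : α i (2 * j + c s) = α i' (2 * j + c s') := hh
        rw [h2]
        exact hαA i' _)
    subst hi
    have h3 := (hαm i).injective hh
    have h4 : c s = c s' := by
      have : 2 * j + c s = 2 * j + c s' := h3
      omega
    cases s <;> cases s' <;> simp_all [c]
  set N : ℝ := (Fintype.card (ι × Bool) : ℝ) with hN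
  have hNpos : 0 < N := by
    rw [hN]
    exact_mod_cast Fintype.card_pos
  let b : ℕ → (ℕ →₀ ℝ) := fun j => ∑ k : ι × Bool, Finsupp.single (g j k) (sg k.2 / N)
  have hb1 : ∀ j, one (b j) = 1 := by
    intro j
    show one (∑ k : ι × Bool, Finsupp.single (g j k) (sg k.2 / N)) = 1
    rw [one_sum_disj]
    · have : ∀ k : ι × Bool, one (Finsupp.single (g j k) (sg k.2 / N)) = 1 / N := by
        intro k
        rw [one_single, abs_div, abs_sg, abs_of_pos hNpos]
      rw [Finset.sum_congr rfl fun k _ => this k, Finset.sum_const, Finset.card_univ, nsmul_eq_mul,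
        ← hN, mul_one_div, div_self hNpos.ne']
    · intro k _ l _ hkl
      rw [Finset.disjoint_left]
      intro i hi hi'
      have h1 := Finsupp.support_single_subset hi
      have h2 := Finsupp.support_single_subset hi'
      rw [Finset.mem_singleton] at h1 h2
      exact hkl (hginj j (h1.symm.trans h2))
  have hbt : Tl b := by
    refine ⟨hb1, fun j i hi => ?_⟩
    obtain ⟨k, -, hk⟩ := supp_sum_sub _ _ hi
    have h1 := Finsupp.support_single_subset hk
    rw [Finset.mem_singleton] at h1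
    rw [h1]
    have h2 : 2 * j + c k.2 ≤ α k.1 (2 * j + c k.2) := (hαm k.1).id_le _
    show j ≤ α k.1 (2 * j + c k.2)
    omega
  have hlc : ∀ j z, lc h (b j) z = ∑ k : ι × Bool, sg k.2 / N * h (g j k) z := by
    intro j z
    show lc h (∑ k : ι × Bool, Finsupp.single (g j k) (sg k.2 / N)) z = _
    rw [map_sum, sum_apply]
    exact Finset.sum_congr rfl fun k _ => by rw [lc_single, smul_apply, smul_eq_mul]
  -- the lower bound
  set a : ℝ := ε - ε / (4 * N) with ha
  have haε : a < ε := by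
    rw [ha]
    have : 0 < ε / (4 * N) := by positivity
    linarith
  have hnot : ¬ Om (fun j => lc h (b j)) a := fun H => absurd (hst a ⟨b, hbt, H⟩) (not_le.2 haε)
  have h1 : ∃ z : E, ‖z‖ ≤ 1 ∧ ∃ᶠ j in atTop, a < lc h (b j) z := by
    unfold Om at hnot
    push Not at hnot
    obtain ⟨z, hz, c', hc', hfr⟩ := hnot
    have h2 : ∃ᶠ j in atTop, (a < lc h (b j) z ∨ a < lc h (b j) (-z)) := by
      refine hfr.mono fun j hj => ?_
      rcases lt_abs.1 (lt_trans hc' hj) with h3 | h3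
      · exact Or.inl h3
      · right
        rw [map_neg]
        exact h3
    rcases frequently_or_distrib.1 h2 with h3 | h3
    · exact ⟨z, hz, h3⟩
    · exact ⟨-z, by rwa [norm_neg], h3⟩
  obtain ⟨z, hz, hfr⟩ := h1
  -- the upper bound
  have h2 : ∀ᶠ j in atTop, ∀ k : ι × Bool, |h (g j k) z| ≤ ε + ε / (4 * N) := by
    rw [eventually_all]
    intro k
    have h3 := hO z hz (ε + ε / (4 * N)) (by
      have : 0 < ε / (4 * N) := by positivity
      linarith)
    have h4 : Tendsto (fun j => g j k) atTop atTop := by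
      refine (hαm k.1).tendsto_atTop.comp ?_
      exact tendsto_atTop_mono (fun j => by show j ≤ 2 * j + c k.2; omega) tendsto_id
    exact h4.eventually h3
  have h3 : ∃ᶠ j in atTop, ∀ k : ι × Bool, ε / 2 ≤ sg k.2 * h (g j k) z := by
    refine (hfr.and_eventually h2).mono ?_
    rintro j ⟨hj1, hj2⟩ k
    rw [hlc] at hj1
    have h4 : ∑ k : ι × Bool, sg k.2 / N * h (g j k) z =
        (∑ k : ι × Bool, sg k.2 * h (g j k) z) / N := by
      rw [Finset.sum_div]
      exact Finset.sum_congr rfl fun k _ => by ring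
    rw [h4, lt_div_iff₀ hNpos] at hj1
    have h5 : ∀ l : ι × Bool, sg l.2 * h (g j l) z ≤ ε + ε / (4 * N) := by
      intro l
      refine (le_abs_self _).trans ?_
      rw [abs_mul, abs_sg, one_mul]
      exact hj2 l
    have h6 : ∑ l ∈ Finset.univ.erase k, sg l.2 * h (g j l) z ≤ (N - 1) * (ε + ε / (4 * N)) := by
      refine (Finset.sum_le_sum fun l _ => h5 l).trans ?_
      rw [Finset.sum_const, nsmul_eq_mul, Finset.card_erase_of_mem (Finset.mem_univ k),
        Finset.card_univ]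
      have : ((Fintype.card (ι × Bool) - 1 : ℕ) : ℝ) = N - 1 := by
        rw [Nat.cast_sub (Fintype.card_pos), hN]
        simp
      rw [this]
    have h7 := Finset.add_sum_erase Finset.univ (fun l : ι × Bool => sg l.2 * h (g j l) z)
      (Finset.mem_univ k)
    have h8 : a * N = ε * N - ε / 4 := by
      rw [ha]
      field_simp
    have h9 : (N - 1) * (ε + ε / (4 * N)) = ε * N - ε + ε / 4 - ε / (4 * N) := by
      field_simp
      ring
    have h10 : 0 < ε / (4 * N) := by positivity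
    rw [h8, ← h7] at hj1
    rw [h9] at h6
    linarith
  have h4 := Nat.frequently_atTop_iff_infinite.1 h3
  refine ⟨z, hz, fun i s => (fun j => g j (i, s)) '' {j | ∀ k : ι × Bool, ε / 2 ≤ sg k.2 * h (g j k) z},
    fun i s => ?_, fun i s => ?_, fun i => ?_, fun i s n hn => ?_⟩
  · refine h4.image ?_
    intro j _ j' _ hjj
    have h5 : 2 * j + c s = 2 * j' + c s := (hαm i).injective hjj
    omega
  · rintro _ ⟨j, _, rfl⟩
    exact hαA i _
  · rw [Set.disjoint_left]
    rintro _ ⟨j, _, rfl⟩ ⟨j', _, hj'⟩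
    have h5 : 2 * j' + c false = 2 * j + c true := (hαm i).injective hj'
    have h6 : c false = 1 := rfl
    have h7 : c true = 0 := rfl
    omega
  · obtain ⟨j, hj, rfl⟩ := hn
    exact hj (i, s)

/-- the tree -/
lemma tree {h : ℕ → (E →L[ℝ] ℝ)} {ε : ℝ} (hε : 0 < ε) (hO : Om h ε)
    (hst : ∀ a, Sm h a → ε ≤ a) :
    ∃ z : ℕ → E, (∀ k, ‖z k‖ ≤ 1) ∧ ∀ (K : ℕ) (p : ℕ → Bool), ∃ n, ∀ k < K,
      ε / 2 ≤ sg (p k) * h n (z k) := by
  classical
  let St := {S : Set (Set ℕ) // S.Finite ∧ S.Nonempty ∧ (∀ C ∈ S, C.Infinite) ∧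
    ∀ C ∈ S, ∀ C' ∈ S, C ≠ C' → Disjoint C C'}
  have hstep : ∀ S : St, ∃ (z : E) (S' : St), ‖z‖ ≤ 1 ∧ ∀ C ∈ S.1, ∀ s : Bool, ∃ C' ∈ S'.1,
      C' ⊆ C ∧ ∀ n ∈ C', ε / 2 ≤ sg s * h n z := by
    rintro ⟨S, hfin, hne, hinf, hdis⟩
    have := hfin.fintype
    have : Nonempty S := hne.to_subtype
    obtain ⟨z, hz, A', h1, h2, h3, h4⟩ := tree_step hε hO hst (fun C : S => (C : Set ℕ))
      (fun C => hinf C C.2) (fun C C' hne => hdis C C.2 C' C'.2 (fun h => hne (Subtype.ext h)))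
    refine ⟨z, ⟨Set.range fun k : S × Bool => A' k.1 k.2, Set.finite_range _, Set.range_nonempty _,
      ?_, ?_⟩, hz, ?_⟩
    · rintro _ ⟨k, rfl⟩
      exact h1 _ _
    · rintro _ ⟨⟨C, s⟩, rfl⟩ _ ⟨⟨C', s'⟩, rfl⟩ hne'
      by_cases hC : C = C'
      · subst hC
        cases s <;> cases s'
        · exact absurd rfl hne'
        · exact (h3 C).symm
        · exact h3 C
        · exact absurd rfl hne'
      · exact Set.disjoint_of_subset (h2 C s) (h2 C' s')
          (hdis C C.2 C' C'.2 (fun h => hC (Subtype.ext h)))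
    · intro C hC s
      exact ⟨A' ⟨C, hC⟩ s, ⟨(⟨C, hC⟩, s), rfl⟩, h2 _ _, h4 _ _⟩
  choose Z nx hZ1 hZ2 using hstep
  have hinit : ({Set.univ} : Set (Set ℕ)).Finite ∧ ({Set.univ} : Set (Set ℕ)).Nonempty ∧
      (∀ C ∈ ({Set.univ} : Set (Set ℕ)), C.Infinite) ∧
      ∀ C ∈ ({Set.univ} : Set (Set ℕ)), ∀ C' ∈ ({Set.univ} : Set (Set ℕ)), C ≠ C' → Disjoint C C' := by
    refine ⟨Set.finite_singleton _, Set.singleton_nonempty _, ?_, ?_⟩
    · intro C hC
      rw [Set.mem_singleton_iff.1 hC]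
      exact Set.infinite_univ
    · intro C hC C' hC' hne
      exact absurd ((Set.mem_singleton_iff.1 hC).trans (Set.mem_singleton_iff.1 hC').symm) hne
  obtain ⟨st, hst0, hsts⟩ : ∃ st : ℕ → St, st 0 = ⟨{Set.univ}, hinit⟩ ∧ ∀ n, st (n + 1) = nx (st n) :=
    ⟨fun n => Nat.rec (motive := fun _ => St) ⟨{Set.univ}, hinit⟩ (fun _ S => nx S) n, rfl,
      fun n => rfl⟩
  refine ⟨fun k => Z (st k), fun k => hZ1 _, fun K p => ?_⟩
  have key : ∀ K : ℕ, ∃ C ∈ (st K).1, ∀ n ∈ C, ∀ k < K, ε / 2 ≤ sg (p k) * h n (Z (st k)) := by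
    intro K
    induction K with
    | zero => exact ⟨Set.univ, by rw [hst0]; exact Set.mem_singleton _, fun n _ k hk =>
        absurd hk (Nat.not_lt_zero k)⟩
    | succ K ih =>
      obtain ⟨C, hC, hCn⟩ := ih
      obtain ⟨C', hC', hsub, hn⟩ := hZ2 (st K) C hC (p K)
      refine ⟨C', by rw [hsts]; exact hC', fun n hn' k hk => ?_⟩
      rcases Nat.lt_succ_iff_lt_or_eq.1 hk with h1 | rfl
      · exact hCn n (hsub hn') k h1
      · exact hn n hn'
  obtain ⟨C, hC, hCn⟩ := key K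
  obtain ⟨n, hn⟩ := ((st K).2.2.2.1 C hC).nonempty
  exact ⟨n, hCn n hn⟩

/-- orthogonality of the signs -/
lemma orth {K : ℕ} (k l : Fin K) (hkl : k ≠ l) :
    ∑ p : Fin K → Bool, sg (p k) * sg (p l) = 0 := by
  classical
  let e : (Fin K → Bool) → (Fin K → Bool) := fun p => Function.update p k (!p k)
  have he : Function.Involutive e := by
    intro p
    funext i
    simp only [e]
    by_cases hi : i = k
    · subst hi
      simp
    · simp [Function.update_of_ne hi]
  have h1 : ∑ p : Fin K → Bool, sg (p k) * sg (p l) =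
      ∑ p : Fin K → Bool, sg (e p k) * sg (e p l) :=
    (Equiv.sum_comp he.toPerm (fun p : Fin K → Bool => sg (p k) * sg (p l))).symm
  have h2 : ∀ p : Fin K → Bool, sg (e p k) * sg (e p l) = - (sg (p k) * sg (p l)) := by
    intro p
    have h3 : e p k = !p k := by simp [e]
    have h4 : e p l = p l := by simp [e, Function.update_of_ne hkl.symm]
    rw [h3, h4]
    have h5 : sg (!p k) = - sg (p k) := by cases p k <;> simp [sg]
    rw [h5, neg_mul]
  rw [Finset.sum_congr rfl fun p _ => h2 p, Finset.sum_neg_distrib] at h1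
  linarith

/-- Bessel's inequality for the signs -/
lemma bessel {K : ℕ} (v : (Fin K → Bool) → ℝ) {R : ℝ} (hv : ∀ p, v p ^ 2 ≤ R) :
    ∑ k : Fin K, ((∑ p : Fin K → Bool, sg (p k) * v p) / 2 ^ K) ^ 2 ≤ R := by
  classical
  set G : Fin K → ℝ := fun k => (∑ p : Fin K → Bool, sg (p k) * v p) / 2 ^ K with hG
  have hcard : ∑ _p : Fin K → Bool, (1 : ℝ) = 2 ^ K := by
    rw [Finset.sum_const, Finset.card_univ, Fintype.card_fun, Fintype.card_bool, Fintype.card_fin]
    simp
  have hpos : (0 : ℝ) < 2 ^ K := by positivity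
  have h1 : 0 ≤ ∑ p : Fin K → Bool, (v p - ∑ k, G k * sg (p k)) ^ 2 :=
    Finset.sum_nonneg fun _ _ => sq_nonneg _
  have h2 : ∑ p : Fin K → Bool, v p * ∑ k, G k * sg (p k) = 2 ^ K * ∑ k, G k ^ 2 := by
    simp only [Finset.mul_sum]
    rw [Finset.sum_comm]
    refine Finset.sum_congr rfl fun k _ => ?_
    have : ∑ p : Fin K → Bool, v p * (G k * sg (p k)) = G k * ∑ p : Fin K → Bool, sg (p k) * v p := by
      rw [Finset.mul_sum]
      exact Finset.sum_congr rfl fun p _ => by ring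
    rw [this, hG]
    field_simp
  have h3 : ∑ p : Fin K → Bool, (∑ k, G k * sg (p k)) ^ 2 = 2 ^ K * ∑ k, G k ^ 2 := by
    have h4 : ∀ p : Fin K → Bool, (∑ k, G k * sg (p k)) ^ 2 =
        ∑ k, ∑ l, G k * G l * (sg (p k) * sg (p l)) := by
      intro p
      rw [sq, Finset.sum_mul_sum]
      exact Finset.sum_congr rfl fun k _ => Finset.sum_congr rfl fun l _ => by ring
    rw [Finset.sum_congr rfl fun p _ => h4 p, Finset.sum_comm, Finset.mul_sum]
    refine Finset.sum_congr rfl fun k _ => ?_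
    rw [Finset.sum_comm, Finset.sum_eq_single k]
    · rw [← Finset.mul_sum]
      have : ∑ p : Fin K → Bool, sg (p k) * sg (p k) = 2 ^ K := by
        rw [← hcard]
        exact Finset.sum_congr rfl fun p _ => sg_mul_self _
      rw [this]
      ring
    · intro l _ hl
      rw [← Finset.mul_sum, orth k l hl.symm, mul_zero]
    · intro h
      exact absurd (Finset.mem_univ k) h
  have h4 : ∑ p : Fin K → Bool, (v p - ∑ k, G k * sg (p k)) ^ 2 =
      ∑ p : Fin K → Bool, v p ^ 2 - 2 ^ K * ∑ k, G k ^ 2 := by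
    have h5 : ∀ p : Fin K → Bool, (v p - ∑ k, G k * sg (p k)) ^ 2 =
        v p ^ 2 - 2 * (v p * ∑ k, G k * sg (p k)) + (∑ k, G k * sg (p k)) ^ 2 := fun p => by ring
    rw [Finset.sum_congr rfl fun p _ => h5 p, Finset.sum_add_distrib, Finset.sum_sub_distrib,
      ← Finset.mul_sum, h2, h3]
    ring
  have h5 : ∑ p : Fin K → Bool, v p ^ 2 ≤ 2 ^ K * R := by
    refine (Finset.sum_le_sum fun p _ => hv p).trans (le_of_eq ?_)
    rw [← hcard, Finset.sum_mul]
    exact Finset.sum_congr rfl fun p _ => by ring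
  have h6 : 2 ^ K * ∑ k, G k ^ 2 ≤ 2 ^ K * R := by linarith
  exact le_of_mul_le_mul_left h6 hpos

/-- weak* null normalised sequences from the tree -/
lemma null_of_tree {h : ℕ → (E →L[ℝ] ℝ)} (hh : ∀ n, ‖h n‖ ≤ 1) {ε : ℝ} (hε : 0 < ε)
    {z : ℕ → E} (hz : ∀ k, ‖z k‖ ≤ 1)
    (H : ∀ (K : ℕ) (p : ℕ → Bool), ∃ n, ∀ k < K, ε / 2 ≤ sg (p k) * h n (z k)) :
    ∃ g : ℕ → (E →L[ℝ] ℝ), (∀ n, ‖g n‖ = 1) ∧ Om g 0 := by
  classical
  choose N hN using H
  let ext : ∀ K : ℕ, (Fin K → Bool) → (ℕ → Bool) := fun K p k => if hk : k < K then p ⟨k, hk⟩ else true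
  let F : ∀ K : ℕ, (Fin K → Bool) → (E →L[ℝ] ℝ) := fun K p => h (N K (ext K p))
  have hF : ∀ K p (k : Fin K), ε / 2 ≤ sg (p k) * F K p (z k) := by
    intro K p k
    have h1 := hN K (ext K p) k k.2
    have h2 : ext K p k = p k := by simp [ext]
    rw [h2] at h1
    exact h1
  let Γ : ∀ K : ℕ, Fin K → (E →L[ℝ] ℝ) := fun K k =>
    (1 / 2 ^ K : ℝ) • ∑ p : Fin K → Bool, sg (p k) • F K p
  have hcard : ∀ K : ℕ, ∑ _p : Fin K → Bool, (1 : ℝ) = 2 ^ K := by
    intro K
    rw [Finset.sum_const, Finset.card_univ, Fintype.card_fun, Fintype.card_bool, Fintype.card_fin]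
    simp
  have hΓapp : ∀ K k x, Γ K k x = (∑ p : Fin K → Bool, sg (p k) * F K p x) / 2 ^ K := by
    intro K k x
    simp only [Γ]
    rw [smul_apply, sum_apply, smul_eq_mul, one_div, inv_mul_eq_div]
    congr 1
  have hΓn : ∀ K k, ‖Γ K k‖ ≤ 1 := by
    intro K k
    simp only [Γ]
    have hp : (0 : ℝ) < 2 ^ K := by positivity
    rw [norm_smul, Real.norm_eq_abs, abs_of_pos (by positivity), one_div, inv_mul_le_iff₀ hp, mul_one]
    refine (norm_sum_le _ _).trans ?_
    rw [← hcard K]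
    refine Finset.sum_le_sum fun p _ => ?_
    rw [norm_smul, Real.norm_eq_abs, abs_sg, one_mul]
    exact hh _
  have hΓz : ∀ K (k : Fin K), ε / 2 ≤ Γ K k (z k) := by
    intro K k
    have hp : (0 : ℝ) < 2 ^ K := by positivity
    rw [hΓapp, le_div_iff₀ hp, ← hcard K, Finset.mul_sum]
    exact Finset.sum_le_sum fun p _ => by rw [mul_one]; exact hF K p k
  have hΓb : ∀ K x, ∑ k : Fin K, (Γ K k x) ^ 2 ≤ ‖x‖ ^ 2 := by
    intro K x
    have h1 := bessel (K := K) (fun p => F K p x) (R := ‖x‖ ^ 2) (fun p => by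
      rw [← sq_abs]
      refine pow_le_pow_left₀ (abs_nonneg _) ?_ 2
      calc |F K p x| ≤ ‖F K p‖ * ‖x‖ := (F K p).le_opNorm x
        _ ≤ 1 * ‖x‖ := mul_le_mul_of_nonneg_right (hh _) (norm_nonneg _)
        _ = ‖x‖ := one_mul _)
    simpa only [hΓapp] using h1
  -- limits
  let Λ : ℕ → ℕ → (E →L[ℝ] ℝ) := fun k K => if hk : k < K then Γ K ⟨k, hk⟩ else 0
  have hΛn : ∀ k K, ‖Λ k K‖ ≤ 1 := by
    intro k K
    simp only [Λ]
    split_ifs
    · exact hΓn _ _
    · simp
  have hlim := fun k => exists_ultralimit (Λ k) 1 (hΛn k)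
  choose G hG using hlim
  have hGz : ∀ k, ε / 2 ≤ G k (z k) := by
    intro k
    refine ge_of_tendsto (hG k (z k)) (Nat.hyperfilter_le_atTop ?_)
    filter_upwards [eventually_gt_atTop k] with K hK
    simp only [Λ, dif_pos hK]
    exact hΓz K ⟨k, hK⟩
  have hGb : ∀ (m : ℕ) x, ∑ k ∈ Finset.range m, (G k x) ^ 2 ≤ ‖x‖ ^ 2 := by
    intro m x
    have h1 : Tendsto (fun K => ∑ k ∈ Finset.range m, (Λ k K x) ^ 2) (hyperfilter ℕ)
        (𝓝 (∑ k ∈ Finset.range m, (G k x) ^ 2)) :=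
      tendsto_finsetSum _ fun k _ => (hG k x).pow 2
    refine le_of_tendsto h1 (Nat.hyperfilter_le_atTop ?_)
    filter_upwards [eventually_ge_atTop m] with K hK
    refine le_trans ?_ (hΓb K x)
    rw [Finset.sum_fin_eq_sum_range]
    refine (Finset.sum_le_sum_of_subset_of_nonneg (Finset.range_mono hK)
      fun _ _ _ => sq_nonneg _).trans (le_of_eq ?_)
    refine Finset.sum_congr rfl fun k hk => ?_
    have hk' : k < K := Finset.mem_range.1 hk
    simp only [Λ, dif_pos hk']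
  have hpt : ∀ x, Tendsto (fun k => G k x) atTop (𝓝 0) := by
    intro x
    have hs : Summable fun k => (G k x) ^ 2 :=
      summable_of_sum_range_le (fun _ => sq_nonneg _) fun m => hGb m x
    have h1 := hs.tendsto_atTop_zero
    have h2 := h1.sqrt
    rw [Real.sqrt_zero] at h2
    have h3 : (fun k => Real.sqrt ((G k x) ^ 2)) = fun k => |G k x| := by
      funext k
      exact Real.sqrt_sq_eq_abs _
    rw [h3] at h2
    exact (tendsto_zero_iff_abs_tendsto_zero _).2 h2
  have hGn : ∀ k, ε / 2 ≤ ‖G k‖ := by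
    intro k
    calc ε / 2 ≤ G k (z k) := hGz k
      _ ≤ ‖G k (z k)‖ := le_abs_self _
      _ ≤ ‖G k‖ * ‖z k‖ := (G k).le_opNorm _
      _ ≤ ‖G k‖ * 1 := mul_le_mul_of_nonneg_left (hz k) (norm_nonneg _)
      _ = ‖G k‖ := mul_one _
  refine ⟨fun k => ‖G k‖⁻¹ • G k, fun k => ?_, ?_⟩
  · have : 0 < ‖G k‖ := by
      have := hGn k
      linarith
    rw [norm_smul, norm_inv, norm_norm, inv_mul_cancel₀ this.ne']
  · intro x _ b hb
    have h1 : Tendsto (fun k => (2 / ε) * |G k x|) atTop (𝓝 0) := by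
      have := (hpt x).abs.const_mul (2 / ε)
      rwa [abs_zero, mul_zero] at this
    filter_upwards [h1.eventually (gt_mem_nhds hb)] with k hk
    rw [smul_apply, smul_eq_mul, abs_mul]
    refine le_trans ?_ hk.le
    refine mul_le_mul_of_nonneg_right ?_ (abs_nonneg _)
    rw [abs_inv, abs_norm]
    have h2 : (2 / ε) = (ε / 2)⁻¹ := by rw [inv_div]
    rw [h2]
    exact inv_anti₀ (by positivity) (hGn k)

/-- normalisation -/
lemma normalise {h : ℕ → (E →L[ℝ] ℝ)} {ρ a : ℝ} (hρ : 0 < ρ) (hn : ∀ n, ρ ≤ ‖h n‖) (hO : Om h a) :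
    ∃ g : ℕ → (E →L[ℝ] ℝ), (∀ n, ‖g n‖ = 1) ∧ Om g (a / ρ) := by
  refine ⟨fun n => ‖h n‖⁻¹ • h n, fun n => ?_, ?_⟩
  · have : 0 < ‖h n‖ := hρ.trans_le (hn n)
    rw [norm_smul, norm_inv, norm_norm, inv_mul_cancel₀ this.ne']
  · intro z hz b hb
    have hb' : a < b * ρ := by rwa [gt_iff_lt, div_lt_iff₀ hρ] at hb
    filter_upwards [hO z hz (b * ρ) hb'] with n h1
    have hpos : 0 < ‖h n‖ := hρ.trans_le (hn n)
    rw [smul_apply, smul_eq_mul, abs_mul, abs_inv, abs_norm, inv_mul_le_iff₀ hpos]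
    refine h1.trans ?_
    have hb0 : 0 ≤ b := by
      have h2 : 0 < b * ρ := lt_of_le_of_lt hO.nonneg hb'
      exact (pos_of_mul_pos_left h2 hρ.le).le
    rw [mul_comm]
    exact mul_le_mul_of_nonneg_right (hn n) hb0

/-- **A weak form of the Josefson-Nissenzweig theorem.** -/
theorem jn (hE : ¬ FiniteDimensional ℝ E) (η : ℝ) (hη : 0 < η) :
    ∃ g : ℕ → (E →L[ℝ] ℝ), (∀ n, ‖g n‖ = 1) ∧ Om g η := by
  classical
  have hE' : ¬ FiniteDimensional ℝ (E →L[ℝ] ℝ) := by
    intro hfd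
    apply hE
    have h1 : Function.Injective (NormedSpace.inclusionInDoubleDual ℝ E) := by
      intro x y hxy
      have h2 := (NormedSpace.inclusionInDoubleDualLi ℝ (E := E)).injective
      exact h2 hxy
    let e1 : ((E →L[ℝ] ℝ) →L[ℝ] ℝ) →ₗ[ℝ] ((E →L[ℝ] ℝ) →ₗ[ℝ] ℝ) :=
      ContinuousLinearMap.coeLM ℝ
    have h2 : Function.Injective (e1.comp (NormedSpace.inclusionInDoubleDual ℝ E).toLinearMap) := by
      intro x y hxy
      apply h1
      exact ContinuousLinearMap.coe_injective hxy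
    exact FiniteDimensional.of_injective _ h2
  obtain ⟨f0, hf0, hsep⟩ := exists_seq_norm_le_one_le_norm_sub' (𝕜 := ℝ) (c := (2 : ℝ)) (R := 3)
    (by norm_num) (by norm_num) hE'
  set f : ℕ → (E →L[ℝ] ℝ) := fun n => (1 / 3 : ℝ) • f0 n with hf
  have hf1 : ∀ n, ‖f n‖ ≤ 1 := by
    intro n
    simp only [hf]
    rw [norm_smul, Real.norm_eq_abs, abs_of_pos (by norm_num)]
    have := hf0 n
    linarith
  have hf2 : ∀ m n, m ≠ n → 1 / 3 ≤ ‖f m - f n‖ := by
    intro m n hmn
    have h1 : f m - f n = (1 / 3 : ℝ) • (f0 m - f0 n) := (smul_sub _ _ _).symm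
    rw [h1, norm_smul, Real.norm_eq_abs, abs_of_pos (by norm_num)]
    have := hsep hmn
    linarith
  rcases dich f hf1 (show 0 < η / 9 by positivity) with ⟨φ, hφ, hO⟩ | ⟨φ, hφ, hlow⟩
  · obtain ⟨g, hg1, hg2⟩ := normalise (ρ := 1 / 3) (by norm_num)
      (fun n => hf2 _ _ (fun h => by have := hφ.injective h; omega)) hO
    exact ⟨g, hg1, hg2.mono (by linarith)⟩
  · set c : ℝ := η / 9 / 2 with hc
    have hc0 : 0 < c := by positivity
    set h : ℕ → (E →L[ℝ] ℝ) := fun n => f (φ n) with hh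
    have hlc : ∀ b : ℕ →₀ ℝ, c * one b ≤ ‖lc h b‖ := by
      intro b
      obtain ⟨n, hn⟩ := b.support.exists_nat_subset_range
      have h1 := hlow n b
      have h2 : one b = ∑ j ∈ Finset.range n, |b j| := one_eq_sum_of_subset hn
      have h3 : lc h b = ∑ j ∈ Finset.range n, b j • f (φ j) := by
        rw [lc_eq_sum]
        refine Finset.sum_subset hn fun j _ hj => ?_
        rw [Finsupp.notMem_support_iff.1 hj, zero_smul]
      rw [h2, h3]
      exact h1
    by_cases hSm : ∃ a, Sm h a ∧ a < c * η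
    · obtain ⟨a, ⟨b, hb, hO⟩, ha⟩ := hSm
      obtain ⟨g, hg1, hg2⟩ := normalise hc0 (fun n => by
        have := hlc (b n)
        rwa [hb.nrm, mul_one] at this) hO
      refine ⟨g, hg1, hg2.mono ?_⟩
      rw [div_le_iff₀ hc0, mul_comm]
      exact ha.le
    · push Not at hSm
      have hep : c * η ≤ ep h := le_csInf ⟨1, sm_one fun n => hf1 _⟩ fun a ha => hSm a ha
      obtain ⟨D, ε, hD1, hD2, hD3, hD4⟩ := stabilise h (fun n => hf1 _)
      have hε : 0 < ε := lt_of_lt_of_le (by positivity) (hep.trans hD2)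
      obtain ⟨z, hz1, hz2⟩ := tree hε hD3 hD4
      obtain ⟨g, hg1, hg2⟩ := null_of_tree hD1 hε hz1 hz2
      exact ⟨g, hg1, hg2.mono hη.le⟩

/-- **the core theorem** -/
theorem finiteDimensional_of_propW (hW : PropW E) : FiniteDimensional ℝ E := by
  by_contra hE
  exact core hW (jn hE)

end Pool.Agent.H791W
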