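import Pool.Agent.H791W.W4

set_option autoImplicit false

/-!
# From the weak maximizing property to `PropW`
-/

namespace Pool.Agent.H791W

open Filter Topology
open scoped ENNReal

/-- the diagonal operator into `ℓ^∞` -/
theorem exists_op {𝕜 E : Type*} [RCLike 𝕜] [NormedAddCommGroup E] [NormedSpace 𝕜 E]
    (F : ℕ → (E →L[𝕜] 𝕜)) (hF : ∀ n, ‖F n‖ ≤ 1) (a : ℕ → ℝ) (ha0 : ∀ n, 0 ≤ a n)
    (ha1 : ∀ n, a n ≤ 1) :
    ∃ T : E →L[𝕜] lp (fun _ : ℕ => 𝕜) ∞, ‖T‖ ≤ 1 ∧ ∀ z n, ‖(T z : ∀ _ : ℕ, 𝕜) n‖ = a n * ‖F n z‖ := by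
  have hb : ∀ z n, ‖((a n : 𝕜) * F n z)‖ ≤ ‖z‖ := by
    intro z n
    rw [norm_mul, RCLike.norm_ofReal, abs_of_nonneg (ha0 n)]
    calc a n * ‖F n z‖ ≤ 1 * (1 * ‖z‖) :=
          mul_le_mul (ha1 n) (((F n).le_opNorm z).trans
            (mul_le_mul_of_nonneg_right (hF n) (norm_nonneg _))) (norm_nonneg _) zero_le_one
      _ = ‖z‖ := by ring
  have hmem : ∀ z, Memℓp (fun n : ℕ => ((a n : 𝕜) * F n z)) ∞ := by
    intro z
    apply memℓp_infty
    exact ⟨‖z‖, by rintro _ ⟨n, rfl⟩; exact hb z n⟩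
  let T0 : E →ₗ[𝕜] lp (fun _ : ℕ => 𝕜) ∞ :=
    { toFun := fun z => ⟨fun n : ℕ => ((a n : 𝕜) * F n z), hmem z⟩
      map_add' := by
        intro x y
        apply Subtype.ext
        funext n
        show (a n : 𝕜) * F n (x + y) = (a n : 𝕜) * F n x + (a n : 𝕜) * F n y
        rw [map_add, mul_add]
      map_smul' := by
        intro c x
        apply Subtype.ext
        funext n
        show (a n : 𝕜) * F n (c • x) = c • ((a n : 𝕜) * F n x)
        rw [map_smul, smul_eq_mul, smul_eq_mul]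
        ring }
  have hT0 : ∀ z, ‖T0 z‖ ≤ 1 * ‖z‖ := by
    intro z
    rw [one_mul]
    exact lp.norm_le_of_forall_le (norm_nonneg _) (hb z)
  refine ⟨T0.mkContinuous 1 hT0, T0.mkContinuous_norm_le zero_le_one hT0, fun z n => ?_⟩
  show ‖((a n : 𝕜) * F n z)‖ = _
  rw [norm_mul, RCLike.norm_ofReal, abs_of_nonneg (ha0 n)]

/-- norm of the extension -/
lemma norm_ext_le {𝕜 E : Type*} [RCLike 𝕜] [NormedAddCommGroup E] [NormedSpace 𝕜 E]
    [NormedSpace ℝ E] [IsScalarTower ℝ 𝕜 E] (f : E →L[ℝ] ℝ) (hf : ‖f‖ ≤ 1) :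
    ‖(StrongDual.extendRCLike f : StrongDual 𝕜 E)‖ ≤ 1 := by
  refine ContinuousLinearMap.opNorm_le_bound _ zero_le_one fun x => ?_
  rw [one_mul]
  have h1 := Module.Dual.norm_extendRCLike_apply_sq (𝕜 := 𝕜) (f : E →ₗ[ℝ] ℝ) x
  set c : 𝕜 := (StrongDual.extendRCLike f : StrongDual 𝕜 E) x with hc
  have h2 : ‖c‖ ^ 2 = f ((starRingEnd 𝕜) c • x) := h1
  have h3 : f ((starRingEnd 𝕜) c • x) ≤ ‖c‖ * ‖x‖ := by
    calc f ((starRingEnd 𝕜) c • x) ≤ ‖f ((starRingEnd 𝕜) c • x)‖ := le_abs_self _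
      _ ≤ ‖f‖ * ‖(starRingEnd 𝕜) c • x‖ := f.le_opNorm _
      _ ≤ 1 * ‖(starRingEnd 𝕜) c • x‖ := mul_le_mul_of_nonneg_right hf (norm_nonneg _)
      _ = ‖c‖ * ‖x‖ := by rw [one_mul, norm_smul, RCLike.norm_conj]
  by_cases h0 : ‖c‖ = 0
  · rw [h0]
    exact norm_nonneg _
  · have hpos : 0 < ‖c‖ := lt_of_le_of_ne (norm_nonneg _) (Ne.symm h0)
    rw [sq, ] at h2
    have h4 : ‖c‖ * ‖c‖ ≤ ‖c‖ * ‖x‖ := by rw [h2]; exact h3
    exact le_of_mul_le_mul_left h4 hpos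

/-- uniform bounds for the extension -/
lemma om_ext {𝕜 E : Type*} [RCLike 𝕜] [NormedAddCommGroup E] [NormedSpace 𝕜 E]
    [NormedSpace ℝ E] [IsScalarTower ℝ 𝕜 E] {f : ℕ → (E →L[ℝ] ℝ)} (hf : ∀ n, ‖f n‖ ≤ 1) {a : ℝ}
    (hO : Om f a) {z : E} (hz : ‖z‖ ≤ 1) {b : ℝ} (hb : a < b) :
    ∀ᶠ n in atTop, ‖(StrongDual.extendRCLike (f n) : StrongDual 𝕜 E) z‖ ≤ b := by
  classical
  by_contra hcon
  have hfr : ∃ᶠ n in atTop, b < ‖(StrongDual.extendRCLike (f n) : StrongDual 𝕜 E) z‖ := by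
    intro h
    apply hcon
    filter_upwards [h] with n hn
    exact not_lt.1 hn
  have hb0 : 0 < b := lt_of_le_of_lt hO.nonneg hb
  obtain ⟨t, ht, htf, hcov⟩ := (isCompact_sphere (0 : 𝕜) 1).finite_cover_balls
    (show 0 < (b - a) / 2 by linarith)
  have h1 : ∃ᶠ n in atTop, ∃ s ∈ htf.toFinset, (a + b) / 2 < f n (s • z) := by
    refine hfr.mono fun n hn => ?_
    set c : 𝕜 := (StrongDual.extendRCLike (f n) : StrongDual 𝕜 E) z with hc
    have hcpos : 0 < ‖c‖ := hb0.trans hn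
    set u : 𝕜 := (starRingEnd 𝕜) c * ((‖c‖⁻¹ : ℝ) : 𝕜) with hu
    have hun : ‖u‖ = 1 := by
      rw [hu, norm_mul, RCLike.norm_conj, RCLike.norm_ofReal, abs_of_pos (inv_pos.2 hcpos),
        mul_inv_cancel₀ hcpos.ne']
    have hfu : f n (u • z) = ‖c‖ := by
      have h2 := Module.Dual.norm_extendRCLike_apply_sq (𝕜 := 𝕜) (f n : E →ₗ[ℝ] ℝ) z
      have h3 : ‖c‖ ^ 2 = f n ((starRingEnd 𝕜) c • z) := h2
      have h4 : u • z = (‖c‖⁻¹ : ℝ) • ((starRingEnd 𝕜) c • z) := by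
        rw [hu, mul_comm, mul_smul, ← RCLike.real_smul_eq_coe_smul (K := 𝕜)]
      rw [h4, map_smul, smul_eq_mul, ← h3]
      field_simp
    have hus : u ∈ Metric.sphere (0 : 𝕜) 1 := by simpa using hun
    obtain ⟨s, hs, hsu⟩ := Set.mem_iUnion₂.1 (hcov hus)
    refine ⟨s, by simpa using hs, ?_⟩
    rw [Metric.mem_ball, dist_eq_norm] at hsu
    have h5 : f n (s • z) = f n (u • z) - f n ((u - s) • z) := by
      rw [← map_sub, ← sub_smul]
      congr 2
      ring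
    have h6 : f n ((u - s) • z) ≤ ‖u - s‖ := by
      calc f n ((u - s) • z) ≤ ‖f n ((u - s) • z)‖ := le_abs_self _
        _ ≤ ‖f n‖ * ‖(u - s) • z‖ := (f n).le_opNorm _
        _ ≤ 1 * (‖u - s‖ * 1) := by
            rw [norm_smul]
            exact mul_le_mul (hf n) (mul_le_mul_of_nonneg_left hz (norm_nonneg _))
              (by positivity) zero_le_one
        _ = ‖u - s‖ := by ring
    rw [h5, hfu]
    linarith
  have h2 : ∃ s ∈ htf.toFinset, ∃ᶠ n in atTop, (a + b) / 2 < f n (s • z) := by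
    by_contra hcon2
    push Not at hcon2
    apply h1
    have h3 : ∀ᶠ n in atTop, ∀ s ∈ htf.toFinset, f n (s • z) ≤ (a + b) / 2 :=
      (eventually_all_finset _).2 fun s hs => hcon2 s hs
    filter_upwards [h3] with n hn
    rintro ⟨s, hs, h⟩
    exact absurd h (not_lt.2 (hn s hs))
  obtain ⟨s, hs, hfr2⟩ := h2
  have hs1 : ‖s‖ = 1 := by
    have := ht (by simpa using hs)
    simpa using this
  have hsz : ‖s • z‖ ≤ 1 := by rw [norm_smul, hs1, one_mul]; exact hz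
  have h3 := hO (s • z) hsz ((a + b) / 2) (by linarith)
  obtain ⟨n, h4, h5⟩ := (hfr2.and_eventually h3).exists
  have := le_abs_self (f n (s • z))
  linarith

/-- **From the weak maximizing property to `PropW`.** -/
theorem propW_of (𝕜 : Type*) [RCLike 𝕜] (E : Type*) [NormedAddCommGroup E] [NormedSpace 𝕜 E]
    [NormedSpace ℝ E] [IsScalarTower ℝ 𝕜 E]
    (H : ∀ T : E →L[𝕜] lp (fun _ : ℕ => 𝕜) ∞, (∃ x : ℕ → E, (∀ n, ‖x n‖ = 1) ∧
      Tendsto (fun n => ‖T (x n)‖) atTop (𝓝 ‖T‖) ∧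
      ¬ ∀ φ : E →L[𝕜] 𝕜, Tendsto (fun n => φ (x n)) atTop (𝓝 0)) →
      ∃ x : E, ‖x‖ = 1 ∧ ‖T x‖ = ‖T‖) : PropW E := by
  intro f x hf hx hlim ⟨a, ha, hO⟩ ψ
  by_contra hψ
  set F : ℕ → (E →L[𝕜] 𝕜) := fun n => StrongDual.extendRCLike (f n) with hF
  have hFn : ∀ n, ‖F n‖ ≤ 1 := fun n => norm_ext_le (f n) (hf n)
  set w : ℕ → ℝ := fun n => 1 - 1 / ((n : ℝ) + 1) with hw
  have hlim0 : Tendsto (fun k : ℕ => 1 / ((k : ℝ) + 1)) atTop (𝓝 0) :=
    tendsto_one_div_add_atTop_nhds_zero_nat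
  have hwlim : Tendsto w atTop (𝓝 1) := by
    have := (tendsto_const_nhds (x := (1 : ℝ)) (f := atTop)).sub hlim0
    rw [sub_zero] at this
    exact this
  have hpos : ∀ n : ℕ, 0 < 1 / ((n : ℝ) + 1) := fun n => by positivity
  have hw0 : ∀ n, 0 ≤ w n := by
    intro n
    have : 1 / ((n : ℝ) + 1) ≤ 1 := by
      rw [div_le_one (by positivity)]
      linarith [Nat.cast_nonneg (α := ℝ) n]
    simp only [hw]
    linarith
  have hw1 : ∀ n, w n < 1 := by
    intro n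
    have := hpos n
    simp only [hw]
    linarith
  obtain ⟨T, hT1, hTn⟩ := exists_op F hFn w hw0 (fun n => (hw1 n).le)
  -- the sequence is maximizing
  have hlow : ∀ n, w n * f n (x n) ≤ ‖T (x n)‖ := by
    intro n
    have h1 : f n (x n) ≤ ‖F n (x n)‖ := by
      have : RCLike.re (F n (x n)) = f n (x n) := StrongDual.re_extendRCLike_apply (f n) (x n)
      rw [← this]
      exact RCLike.re_le_norm _
    calc w n * f n (x n) ≤ w n * ‖F n (x n)‖ := mul_le_mul_of_nonneg_left h1 (hw0 n)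
      _ = ‖(T (x n) : ∀ _ : ℕ, 𝕜) n‖ := (hTn _ _).symm
      _ ≤ ‖T (x n)‖ := lp.norm_apply_le_norm (by simp) _ _
  have hup : ∀ n, ‖T (x n)‖ ≤ ‖T‖ := by
    intro n
    have := T.le_opNorm (x n)
    rwa [hx, mul_one] at this
  have hlim1 : Tendsto (fun n => w n * f n (x n)) atTop (𝓝 1) := by
    have := hwlim.mul hlim
    rwa [one_mul] at this
  have hTnorm : ‖T‖ = 1 := by
    refine le_antisymm hT1 (le_of_tendsto' hlim1 fun n => (hlow n).trans (hup n))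
  have hmax : Tendsto (fun n => ‖T (x n)‖) atTop (𝓝 ‖T‖) := by
    rw [hTnorm]
    refine tendsto_of_tendsto_of_tendsto_of_le_of_le hlim1 tendsto_const_nhds hlow fun n => ?_
    rw [← hTnorm]
    exact hup n
  have hnw : ¬ ∀ φ : E →L[𝕜] 𝕜, Tendsto (fun n => φ (x n)) atTop (𝓝 0) := by
    intro hall
    apply hψ
    have h1 := hall (StrongDual.extendRCLike ψ)
    have h2 := (RCLike.continuous_re.tendsto (0 : 𝕜)).comp h1
    simp only [map_zero] at h2
    refine h2.congr fun n => ?_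
    exact StrongDual.re_extendRCLike_apply ψ (x n)
  obtain ⟨z, hz1, hz2⟩ := H T ⟨x, hx, hmax, hnw⟩
  -- but the norm is not attained
  obtain ⟨b, hab, hb1⟩ := exists_between ha
  obtain ⟨N, hN⟩ := eventually_atTop.1 (om_ext (𝕜 := 𝕜) hf hO hz1.le hab)
  have hFz : ∀ n, ‖F n z‖ ≤ 1 := by
    intro n
    have := (F n).le_opNorm z
    rw [hz1, mul_one] at this
    exact this.trans (hFn n)
  have hbd : ‖T z‖ ≤ max b (1 - 1 / ((N : ℝ) + 1)) := by
    refine lp.norm_le_of_forall_le' _ fun n => ?_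
    rw [hTn]
    rcases le_or_gt N n with h | h
    · refine le_trans ?_ (le_max_left _ _)
      calc w n * ‖F n z‖ ≤ 1 * b :=
            mul_le_mul (hw1 n).le (hN n h) (norm_nonneg _) zero_le_one
        _ = b := one_mul b
    · refine le_trans ?_ (le_max_right _ _)
      calc w n * ‖F n z‖ ≤ w n * 1 := mul_le_mul_of_nonneg_left (hFz n) (hw0 n)
        _ = w n := mul_one _
        _ ≤ 1 - 1 / ((N : ℝ) + 1) := by
            simp only [hw]
            have h3 : 1 / ((N : ℝ) + 1) ≤ 1 / ((n : ℝ) + 1) :=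
              one_div_le_one_div_of_le (by positivity) (by
                have : (n : ℝ) ≤ N := by exact_mod_cast h.le
                linarith)
            linarith
  have hlt : max b (1 - 1 / ((N : ℝ) + 1)) < 1 := by
    refine max_lt hb1 ?_
    have := hpos N
    linarith
  rw [hz2, hTnorm] at hbd
  linarith

end Pool.Agent.H791W
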